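import Mathlib
import Pool.Agent.Helper59.PX.Defs

/-!
Basic facts on the family of a network.
-/

set_option autoImplicit false

namespace Pool.Agent.Helper59.PX

open Pool.Agent.Helper70.IdemDefs

variable {X Y L : Type} (N : Network X Y L)

namespace Network

theorem cg_rel (u u' : Pt X Y L) : N.cg u u' u u' := by
  intro θ hθ
  exact hθ.1

theorem inv_cg (u u' : Pt X Y L) : N.Inv (N.cg u u') := by
  intro a a' b b' h hr θ hθ
  exact hθ.2 _ _ _ _ (h θ hθ) hr

theorem cg_le {θ : Setoid (Pt X Y L)} (h : N.Inv θ) {u u' : Pt X Y L} (hu : θ u u') :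
    N.cg u u' ≤ θ := by
  intro a b hab
  exact hab θ ⟨hu, h⟩

theorem pres_all {f : Pt X Y L → Pt X Y L → Pt X Y L}
    (hf : ∀ θ ∈ N.family, Preserves f θ) {θ : Setoid (Pt X Y L)} (h : N.Inv θ) :
    Preserves f θ := by
  intro x x' y y' hx hy
  have h1 : θ (f x y) (f x' y) :=
    N.cg_le h hx (hf _ ⟨x, x', rfl⟩ x x' y y (N.cg_rel x x') ((N.cg x x').refl y))
  have h2 : θ (f x' y) (f x' y') :=
    N.cg_le h hy (hf _ ⟨y, y', rfl⟩ x' x' y y' ((N.cg y y').refl x') (N.cg_rel y y'))
  exact θ.trans h1 h2

theorem act_nonrow (y : Y) (v w : Val) (p : Pt X Y L) (h : ∀ x, p ≠ .row x) :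
    N.act y v p = N.act y w p := by
  cases p <;> first | rfl | exact absurd rfl (h _)

theorem allowV_symm {x x' : X} {y : Y} {v w : Val} (h : N.AllowV x x' y v w) :
    N.AllowV x' x y w v := by
  obtain ⟨h1, h2, h3, h4, h5⟩ := h
  exact ⟨fun e => (h1 e.symm).symm, fun q => (h3 q).symm, fun q => (h2 q).symm, h5, h4⟩

/-- Invariance of the kernel of a map for which the columns are isolated. -/
theorem inv_ker {α : Type} (k : Pt X Y L → α) (hcol : ∀ y t, k (.col y) = k t → t = .col y)
    (hleft : ∀ u u' y v w, k u = k u' →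
      (∀ x x', u = .row x → u' = .row x' → N.AllowV x x' y v w) →
        k (N.act y v u) = k (N.act y w u')) : N.Inv (Setoid.ker k) := by
  intro u u' a a' h hr
  have h' : k u = k u' := h
  cases hr with
  | left _ _ y v w hal => exact hleft _ _ _ _ _ h' hal
  | right y y' p v w hal =>
    have e := hcol _ _ h'
    have e' : y' = y := by simpa using e
    subst e'
    show k _ = k _
    by_cases hp : ∃ x, p = .row x
    · obtain ⟨x, rfl⟩ := hp
      have := (hal x rfl).1 rfl
      rw [this]
    · rw [N.act_nonrow y' v w p (fun x hx => hp ⟨x, hx⟩)]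
  | inert y t p v hal =>
    exact absurd (hcol _ _ h') (hal y)

/-- The operation of a valid choice of values preserves everything. -/
theorem op_pres (c : X → Y → Val) (hc : N.Valid c) {θ : Setoid (Pt X Y L)} (h : N.Inv θ) :
    Preserves (N.op c) θ := by
  have hact : ∀ (y : Y) (u : Pt X Y L), N.op c u (.col y) =
      N.act y (match u with | .row x => c x y | _ => ⟨(0, 1), by decide⟩) u := by
    intro y u
    cases u <;> rfl
  intro u u' t t' hu ht
  have h1 : θ (N.op c u t) (N.op c u' t) := by
    by_cases hcol : ∃ y, t = .col y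
    · obtain ⟨y, rfl⟩ := hcol
      rw [hact, hact]
      refine h _ _ _ _ hu (Rule.left u u' y _ _ ?_)
      rintro x x' rfl rfl
      refine ⟨?_, ?_, ?_, ?_, ?_⟩
      · rintro rfl; rfl
      · intro q; exact hc.2.1 _ _ _ q
      · intro q; exact (hc.2.1 _ _ _ q).symm
      · intro q; exact hc.2.2 _ _ _ q
      · intro q; exact hc.2.2 _ _ _ q
    · have e : ∀ w, N.op c w t = w := by
        intro w
        cases t <;> first | rfl | exact absurd ⟨_, rfl⟩ hcol
      rw [e, e]; exact hu
  refine θ.trans h1 ?_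
  by_cases hcol : ∃ y, t = .col y
  · obtain ⟨y, rfl⟩ := hcol
    by_cases hcol' : ∃ y, t' = .col y
    · obtain ⟨y', rfl⟩ := hcol'
      rw [hact, hact]
      refine h _ _ _ _ ht (Rule.right y y' u' _ _ ?_)
      rintro x rfl
      refine ⟨?_, ?_⟩
      · rintro rfl; rfl
      · rintro l b hl rfl
        exact hc.1 _ _ _ _ hl
    · have e : N.op c u' t' = u' := by
        cases t' <;> first | rfl | exact absurd ⟨_, rfl⟩ hcol'
      rw [e, hact]
      exact h _ _ _ _ ht (Rule.inert y t' u' _ (fun y' hy' => hcol' ⟨y', hy'⟩))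
  · have e : N.op c u' t = u' := by
      cases t <;> first | rfl | exact absurd ⟨_, rfl⟩ hcol
    by_cases hcol' : ∃ y, t' = .col y
    · obtain ⟨y', rfl⟩ := hcol'
      rw [e, hact]
      exact θ.symm (h _ _ _ _ (θ.symm ht) (Rule.inert y' t u' _ (fun y hy => hcol ⟨y, hy⟩)))
    · have e' : N.op c u' t' = u' := by
        cases t' <;> first | rfl | exact absurd ⟨_, rfl⟩ hcol'
      rw [e, e']

theorem op_idem (c : X → Y → Val) (u : Pt X Y L) : N.op c u u = u := by
  cases u <;> rfl

/-- A network with a valid choice of values and at least one column fails (P). -/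
theorem not_propertyP [Nonempty Y] (c : X → Y → Val) (hc : N.Valid c) :
    ¬ PropertyP N.family := by
  intro hP
  obtain ⟨y⟩ := ‹Nonempty Y›
  have hpres : ∀ θ ∈ N.family, Preserves (N.op c) θ := by
    rintro θ ⟨u, u', rfl⟩
    exact N.op_pres c hc (N.inv_cg u u')
  rcases hP (N.op c) (N.op_idem c) hpres with h | h
  · -- a plain colour of another column is killed
    obtain ⟨x, hx⟩ := N.linked y
    obtain ⟨⟨l, b⟩, hl⟩ := Option.ne_none_iff_exists'.1 hx
    have he := N.lab_ep x y l b hl
    have h1 := h (.pl (N.ep l (!b)) ⟨(0, 1), by decide⟩) (.col y)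
    have h2 : N.ep l (!b) ≠ y := by rw [← he]; exact (N.ep_ne l b).symm
    simp [Network.op, Network.act, h2] at h1
  · have := h (.r false) (.r true)
    simp [Network.op] at this

end Network

end Pool.Agent.Helper59.PX
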