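import Mathlib
import Pool.Agent.Helper59.PX.Defs

/-!
Layouts of a graph, and the data of the network of a layout.
-/

set_option autoImplicit false

namespace Pool.Agent.Helper59.PX

variable {V : Type}

/-- Incidences of a graph: an edge with one of its two ends. -/
abbrev Inc (G : SimpleGraph V) : Type := G.edgeSet × Bool

/-- The two ends of an edge, in a chosen order. -/
noncomputable def ends {G : SimpleGraph V} (e : G.edgeSet) : V × V := Quot.out e.1

/-- The vertex of an incidence. -/
noncomputable def vert {G : SimpleGraph V} (i : Inc G) : V :=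
  if i.2 = true then (ends i.1).2 else (ends i.1).1

/-- A layout of a graph. The vertices are placed in a grid with columns `A` and rows `H`, the edges
in a grid with columns `A` and rows `H'`. Every incidence is sent from the column of its vertex to
the column of its edge in `h + 1` hops; the hop `j` moves column `a` to column `sh j t a` for one of
the shifts `t : T`, and it uses one of the rows `R`, so that two incidences which use the same row
in the same hop start in different columns and arrive in different columns. -/
structure Layout (G : SimpleGraph V) where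
  h : ℕ
  A : Type
  T : Type
  R : Type
  H : Type
  H' : Type
  finA : Finite A
  finT : Finite T
  finR : Finite R
  finH : Finite H
  finH' : Finite H'
  neA : Nonempty A
  neT : Nonempty T
  sh : ℕ → T → Equiv.Perm A
  pv : V → A × H
  pv_inj : Function.Injective pv
  pe : G.edgeSet → A × H'
  pe_inj : Function.Injective pe
  path : ℕ → Inc G → A
  tt : ℕ → Inc G → T
  rho : ℕ → Inc G → R
  path_zero : ∀ i, path 0 i = (pv (vert i)).1
  path_last : ∀ i, path (h + 1) i = (pe i.1).1
  path_succ : ∀ j ≤ h, ∀ i, path (j + 1) i = sh j (tt j i) (path j i)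
  rho_left : ∀ j ≤ h, ∀ i i', rho j i = rho j i' → path j i = path j i' → i = i'
  rho_right : ∀ j ≤ h, ∀ i i', rho j i = rho j i' → path (j + 1) i = path (j + 1) i' → i = i'

/-- The rows of the network of a layout with `h + 1` hops. -/
inductive LRow (h : ℕ) (T R H H' : Type) : Type
  | star : LRow h T R H H'
  | shift : Fin (h + 1) → T → LRow h T R H H'
  | comm : Fin (h + 1) → R → LRow h T R H H'
  | home : H → LRow h T R H H'
  | edge : H' → LRow h T R H H'

namespace Layout

variable {G : SimpleGraph V} (Λ : Layout G)

abbrev Row : Type := LRow Λ.h Λ.T Λ.R Λ.H Λ.H'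

/-- columns: a level and a place -/
abbrev Col : Type := Fin (Λ.h + 2) × Λ.A

/-- links: a hop, the place where it starts, and a shift -/
abbrev Link : Type := Fin (Λ.h + 1) × Λ.A × Λ.T

/-- the two columns of a link -/
def ep (l : Λ.Link) (b : Bool) : Λ.Col :=
  if b = true then (l.1.succ, Λ.sh l.1 l.2.2 l.2.1) else (l.1.castSucc, l.2.1)

/-- the link of the hop `j` of the incidence `i` -/
def lk (j : Fin (Λ.h + 1)) (i : Inc G) : Λ.Link := (j, Λ.path j i, Λ.tt j i)

open Classical in
/-- The links in use: the row `shift j t` uses all links of the hop `j` with the shift `t`, the row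
`comm j ρ` uses the links of the incidences whose hop `j` uses the row `ρ`. -/
noncomputable def lab : Λ.Row → Λ.Col → Option (Λ.Link × Bool)
  | .star, _ => none
  | .home _, _ => none
  | .edge _, _ => none
  | .shift j t, y =>
      if y.1 = j.castSucc then some ((j, y.2, t), false)
      else if y.1 = j.succ then some ((j, (Λ.sh j t).symm y.2, t), true)
      else none
  | .comm j ρ, y =>
      if h : ∃ i, Λ.rho j i = ρ ∧ y = (j.castSucc, Λ.path j i) then some (Λ.lk j h.choose, false)
      else if h : ∃ i, Λ.rho j i = ρ ∧ y = (j.succ, Λ.path (j + 1) i) then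
        some (Λ.lk j h.choose, true)
      else none

/-- The first colours agree: along every incidence, from the cell of its vertex to the first hop,
between consecutive hops, and, for the first end of an edge, from the last hop to the cell of the
edge. -/
def Q1 (x x' : Λ.Row) (y : Λ.Col) : Prop :=
  (∃ i : Inc G, x = .home (Λ.pv (vert i)).2 ∧ x' = .comm 0 (Λ.rho 0 i) ∧ y = (0, Λ.path 0 i)) ∨
  (∃ (i : Inc G) (j j' : Fin (Λ.h + 1)), (j' : ℕ) = j + 1 ∧ x = .comm j (Λ.rho j i) ∧
    x' = .comm j' (Λ.rho j' i) ∧ y = (j.succ, Λ.path (j + 1) i)) ∨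
  (∃ e : G.edgeSet, x = .edge (Λ.pe e).2 ∧ x' = .comm (Fin.last Λ.h) (Λ.rho Λ.h (e, false)) ∧
    y = (Fin.last (Λ.h + 1), (Λ.pe e).1))

/-- The second colour of the cell of an edge is the first colour of the last hop of its second
end. -/
def Q2 (x x' : Λ.Row) (y : Λ.Col) : Prop :=
  ∃ e : G.edgeSet, x = .edge (Λ.pe e).2 ∧ x' = .comm (Fin.last Λ.h) (Λ.rho Λ.h (e, true)) ∧
    y = (Fin.last (Λ.h + 1), (Λ.pe e).1)

end Layout

end Pool.Agent.Helper59.PX
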