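import Mathlib
import Pool.Agent.Helper59.PX.LayDefs

/-!
The network of a layout: the links of the rows `shift j t` and `comm j ρ`, the two columns of a link,
and the fields of the network.
-/

set_option autoImplicit false

namespace Pool.Agent.Helper59.PX

variable {V : Type}

theorem ends_eq {G : SimpleGraph V} (e : G.edgeSet) : s((ends e).1, (ends e).2) = e.1 :=
  Quot.out_eq e.1

theorem adj_ends {G : SimpleGraph V} (e : G.edgeSet) : G.Adj (ends e).1 (ends e).2 := by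
  rw [← SimpleGraph.mem_edgeSet, ends_eq]
  exact e.2

namespace Layout

variable {G : SimpleGraph V} (Λ : Layout G)

private theorem lay_ne (j : Fin (Λ.h + 1)) : j.succ ≠ j.castSucc := (Fin.castSucc_lt_succ (i := j)).ne'

private theorem ep_true (l : Λ.Link) : Λ.ep l true = (l.1.succ, Λ.sh l.1 l.2.2 l.2.1) := if_pos rfl

private theorem ep_false (l : Λ.Link) : Λ.ep l false = (l.1.castSucc, l.2.1) :=
  if_neg (by decide)

theorem ep_ne (l : Λ.Link) (b : Bool) : Λ.ep l b ≠ Λ.ep l (!b) := by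
  cases b with
  | true =>
    rw [Bool.not_true, ep_true, ep_false]
    exact fun h => Λ.lay_ne l.1 (congrArg Prod.fst h)
  | false =>
    rw [Bool.not_false, ep_true, ep_false]
    exact fun h => Λ.lay_ne l.1 (congrArg Prod.fst h).symm

theorem ep_lk_false (j : Fin (Λ.h + 1)) (i : Inc G) :
    Λ.ep (Λ.lk j i) false = (j.castSucc, Λ.path j i) := by
  rw [ep_false]
  rfl

theorem ep_lk_true (j : Fin (Λ.h + 1)) (i : Inc G) :
    Λ.ep (Λ.lk j i) true = (j.succ, Λ.path (j + 1) i) := by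
  rw [ep_true]
  change (j.succ, Λ.sh j (Λ.tt j i) (Λ.path j i)) = _
  rw [Λ.path_succ j (Nat.lt_succ_iff.1 j.2) i]

open Classical in
private theorem lab_comm_eq (j : Fin (Λ.h + 1)) (ρ : Λ.R) (y : Λ.Col) :
    Λ.lab (.comm j ρ) y =
      if h : ∃ i, Λ.rho j i = ρ ∧ y = (j.castSucc, Λ.path j i) then some (Λ.lk j h.choose, false)
      else if h : ∃ i, Λ.rho j i = ρ ∧ y = (j.succ, Λ.path (j + 1) i) then
        some (Λ.lk j h.choose, true)
      else none := rfl

private theorem lab_shift_eq (j : Fin (Λ.h + 1)) (t : Λ.T) (y : Λ.Col) :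
    Λ.lab (.shift j t) y =
      if y.1 = j.castSucc then some ((j, y.2, t), false)
      else if y.1 = j.succ then some ((j, (Λ.sh j t).symm y.2, t), true)
      else none := by
  unfold lab
  congr

theorem lab_comm_left (j : Fin (Λ.h + 1)) (i : Inc G) :
    Λ.lab (.comm j (Λ.rho j i)) (j.castSucc, Λ.path j i) = some (Λ.lk j i, false) := by
  have h : ∃ i', Λ.rho j i' = Λ.rho j i ∧
      ((j.castSucc, Λ.path j i) : Λ.Col) = (j.castSucc, Λ.path j i') := ⟨i, rfl, rfl⟩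
  have h1 : h.choose = i := by
    obtain ⟨h2, h3⟩ := h.choose_spec
    exact Λ.rho_left j (Nat.lt_succ_iff.1 j.2) _ _ h2 (congrArg Prod.snd h3).symm
  rw [lab_comm_eq, dif_pos h, h1]

theorem lab_comm_right (j : Fin (Λ.h + 1)) (i : Inc G) :
    Λ.lab (.comm j (Λ.rho j i)) (j.succ, Λ.path (j + 1) i) = some (Λ.lk j i, true) := by
  have h0 : ¬ ∃ i', Λ.rho j i' = Λ.rho j i ∧
      ((j.succ, Λ.path (j + 1) i) : Λ.Col) = (j.castSucc, Λ.path j i') := by
    rintro ⟨i', -, h⟩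
    exact Λ.lay_ne j (congrArg Prod.fst h)
  have h : ∃ i', Λ.rho j i' = Λ.rho j i ∧
      ((j.succ, Λ.path (j + 1) i) : Λ.Col) = (j.succ, Λ.path (j + 1) i') := ⟨i, rfl, rfl⟩
  have h1 : h.choose = i := by
    obtain ⟨h2, h3⟩ := h.choose_spec
    exact Λ.rho_right j (Nat.lt_succ_iff.1 j.2) _ _ h2 (congrArg Prod.snd h3).symm
  rw [lab_comm_eq, dif_neg h0, dif_pos h, h1]

theorem lab_comm_cases (j : Fin (Λ.h + 1)) (ρ : Λ.R) (y : Λ.Col) (l : Λ.Link) (b : Bool)
    (hl : Λ.lab (.comm j ρ) y = some (l, b)) :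
    ∃ i, Λ.rho j i = ρ ∧ l = Λ.lk j i ∧
      ((b = false ∧ y = (j.castSucc, Λ.path j i)) ∨ (b = true ∧ y = (j.succ, Λ.path (j + 1) i))) := by
  rw [lab_comm_eq] at hl
  split_ifs at hl with h1 h2
  · rw [Option.some.injEq, Prod.mk.injEq] at hl
    exact ⟨h1.choose, h1.choose_spec.1, hl.1.symm, Or.inl ⟨hl.2.symm, h1.choose_spec.2⟩⟩
  · rw [Option.some.injEq, Prod.mk.injEq] at hl
    exact ⟨h2.choose, h2.choose_spec.1, hl.1.symm, Or.inr ⟨hl.2.symm, h2.choose_spec.2⟩⟩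

private theorem lab_shift_left (j : Fin (Λ.h + 1)) (t : Λ.T) (a : Λ.A) :
    Λ.lab (.shift j t) (j.castSucc, a) = some ((j, a, t), false) := by
  rw [lab_shift_eq]
  exact if_pos rfl

private theorem lab_shift_right (j : Fin (Λ.h + 1)) (t : Λ.T) (a : Λ.A) :
    Λ.lab (.shift j t) (j.succ, Λ.sh j t a) = some ((j, a, t), true) := by
  rw [lab_shift_eq, if_neg (Λ.lay_ne j), if_pos rfl, Equiv.symm_apply_apply]

private theorem lab_shift_cases (j : Fin (Λ.h + 1)) (t : Λ.T) (y : Λ.Col) (l : Λ.Link) (b : Bool)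
    (hl : Λ.lab (.shift j t) y = some (l, b)) :
    ∃ a, l = (j, a, t) ∧
      ((b = false ∧ y = (j.castSucc, a)) ∨ (b = true ∧ y = (j.succ, Λ.sh j t a))) := by
  rw [lab_shift_eq] at hl
  split_ifs at hl with h1 h2
  · rw [Option.some.injEq, Prod.mk.injEq] at hl
    exact ⟨y.2, hl.1.symm, Or.inl ⟨hl.2.symm, Prod.ext h1 rfl⟩⟩
  · rw [Option.some.injEq, Prod.mk.injEq] at hl
    exact ⟨_, hl.1.symm, Or.inr ⟨hl.2.symm, Prod.ext h2 (Equiv.apply_symm_apply _ _).symm⟩⟩

theorem lab_ep (x : Λ.Row) (y : Λ.Col) (l : Λ.Link) (b : Bool) (hl : Λ.lab x y = some (l, b)) :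
    Λ.ep l b = y := by
  cases x with
  | star => exact absurd hl (by unfold lab; exact fun h => nomatch h)
  | home _ => exact absurd hl (by unfold lab; exact fun h => nomatch h)
  | edge _ => exact absurd hl (by unfold lab; exact fun h => nomatch h)
  | shift j t =>
    obtain ⟨a, rfl, ⟨rfl, rfl⟩ | ⟨rfl, rfl⟩⟩ := Λ.lab_shift_cases j t y l b hl
    · exact Λ.ep_false _
    · exact Λ.ep_true _
  | comm j ρ =>
    obtain ⟨i, rfl, rfl, ⟨rfl, rfl⟩ | ⟨rfl, rfl⟩⟩ := Λ.lab_comm_cases j ρ y l b hl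
    · exact Λ.ep_lk_false j i
    · exact Λ.ep_lk_true j i

theorem lab_sym (x : Λ.Row) (y : Λ.Col) (l : Λ.Link) (b : Bool) (hl : Λ.lab x y = some (l, b)) :
    Λ.lab x (Λ.ep l (!b)) = some (l, !b) := by
  cases x with
  | star => exact absurd hl (by unfold lab; exact fun h => nomatch h)
  | home _ => exact absurd hl (by unfold lab; exact fun h => nomatch h)
  | edge _ => exact absurd hl (by unfold lab; exact fun h => nomatch h)
  | shift j t =>
    obtain ⟨a, rfl, ⟨rfl, rfl⟩ | ⟨rfl, rfl⟩⟩ := Λ.lab_shift_cases j t y l b hl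
    · rw [Bool.not_false, ep_true]
      exact Λ.lab_shift_right j t a
    · rw [Bool.not_true, ep_false]
      exact Λ.lab_shift_left j t a
  | comm j ρ =>
    obtain ⟨i, rfl, rfl, ⟨rfl, rfl⟩ | ⟨rfl, rfl⟩⟩ := Λ.lab_comm_cases j ρ y l b hl
    · rw [Bool.not_false, ep_lk_true]
      exact Λ.lab_comm_right j i
    · rw [Bool.not_true, ep_lk_false]
      exact Λ.lab_comm_left j i

theorem Q2_ne (x x' : Λ.Row) (y : Λ.Col) (hq : Λ.Q2 x x' y) : Λ.lab x y ≠ Λ.lab x' y := by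
  obtain ⟨e, rfl, rfl, rfl⟩ := hq
  have h1 := Λ.lab_comm_right (Fin.last Λ.h) (e, true)
  have h2 : Λ.path ((Fin.last Λ.h : Fin (Λ.h + 1)) + 1) (e, true) = (Λ.pe e).1 :=
    Λ.path_last (e, true)
  rw [h2, Fin.succ_last] at h1
  intro h
  have h3 : Λ.lab (.comm (Fin.last Λ.h) (Λ.rho Λ.h (e, true)))
      (Fin.last (Λ.h + 1), (Λ.pe e).1) = none := h.symm
  exact nomatch h1.symm.trans h3

theorem linked (y : Λ.Col) : ∃ x, Λ.lab x y ≠ none := by
  obtain ⟨t⟩ := Λ.neT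
  obtain ⟨m, a⟩ := y
  rcases Fin.eq_castSucc_or_eq_last m with ⟨j, rfl⟩ | rfl
  · refine ⟨.shift j t, ?_⟩
    rw [Λ.lab_shift_left j t a]
    exact Option.some_ne_none _
  · refine ⟨.shift (Fin.last Λ.h) t, ?_⟩
    have h1 := Λ.lab_shift_right (Fin.last Λ.h) t ((Λ.sh (Fin.last Λ.h) t).symm a)
    rw [Equiv.apply_symm_apply, Fin.succ_last] at h1
    rw [h1]
    exact Option.some_ne_none _

theorem used (l : Λ.Link) (b : Bool) : ∃ x, Λ.lab x (Λ.ep l b) = some (l, b) := by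
  obtain ⟨j, a, t⟩ := l
  refine ⟨.shift j t, ?_⟩
  cases b with
  | true =>
    rw [ep_true]
    exact Λ.lab_shift_right j t a
  | false =>
    rw [ep_false]
    exact Λ.lab_shift_left j t a

/-- The network of a layout. -/
noncomputable def net : Network Λ.Row Λ.Col Λ.Link where
  ep := Λ.ep
  ep_ne := Λ.ep_ne
  lab := Λ.lab
  lab_ep := Λ.lab_ep
  lab_sym := Λ.lab_sym
  Q1 := Λ.Q1
  Q2 := Λ.Q2
  Q2_ne := Λ.Q2_ne
  star := .star
  lab_star := fun _ => rfl
  linked := Λ.linked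
  used := Λ.used

/-- The set `E` of a layout. -/
abbrev Point : Type := Pt Λ.Row Λ.Col Λ.Link

/-- The family of a layout. -/
def family : Set (Setoid Λ.Point) := Λ.net.family

end Layout

end Pool.Agent.Helper59.PX
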