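import Mathlib
import Pool.Agent.Helper59.PX.LayNet

/-!
Cardinalities of the set of points, of the set of rows, and of the family.
-/

set_option autoImplicit false

namespace Pool.Agent.Helper59.PX

theorem card_val : Nat.card Val = 6 := by
  rw [Nat.card_eq_fintype_card]
  decide

/-- the sorts of the points -/
private def ptEquiv (X Y L : Type) : Pt X Y L ≃
    Unit ⊕ Bool ⊕ X ⊕ Y ⊕ (Y × Val) ⊕ (L × Bool × Val) ⊕ (L × Bool × Val) where
  toFun
    | .zero => .inl ()
    | .r s => .inr (.inl s)
    | .row x => .inr (.inr (.inl x))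
    | .col y => .inr (.inr (.inr (.inl y)))
    | .pl y v => .inr (.inr (.inr (.inr (.inl (y, v)))))
    | .out l b v => .inr (.inr (.inr (.inr (.inr (.inl (l, b, v))))))
    | .inn l b v => .inr (.inr (.inr (.inr (.inr (.inr (l, b, v))))))
  invFun
    | .inl _ => .zero
    | .inr (.inl s) => .r s
    | .inr (.inr (.inl x)) => .row x
    | .inr (.inr (.inr (.inl y))) => .col y
    | .inr (.inr (.inr (.inr (.inl p)))) => .pl p.1 p.2
    | .inr (.inr (.inr (.inr (.inr (.inl p))))) => .out p.1 p.2.1 p.2.2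
    | .inr (.inr (.inr (.inr (.inr (.inr p))))) => .inn p.1 p.2.1 p.2.2
  left_inv p := by cases p <;> rfl
  right_inv p := by
    rcases p with _ | _ | _ | _ | _ | _ | _ <;> rfl

theorem finite_pt {X Y L : Type} [Finite X] [Finite Y] [Finite L] : Finite (Pt X Y L) :=
  Finite.of_equiv _ (ptEquiv X Y L).symm

theorem card_pt {X Y L : Type} [Finite X] [Finite Y] [Finite L] :
    Nat.card (Pt X Y L) = 3 + Nat.card X + 7 * Nat.card Y + 24 * Nat.card L := by
  rw [Nat.card_congr (ptEquiv X Y L), Nat.card_sum, Nat.card_sum, Nat.card_sum, Nat.card_sum,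
    Nat.card_sum, Nat.card_sum, Nat.card_prod, Nat.card_prod, Nat.card_prod, card_val,
    Nat.card_unique, Nat.card_eq_fintype_card (α := Bool), Fintype.card_bool]
  ring

/-- the sorts of the rows -/
private def rowEquiv (h : ℕ) (T R H H' : Type) : LRow h T R H H' ≃
    Unit ⊕ (Fin (h + 1) × T) ⊕ (Fin (h + 1) × R) ⊕ H ⊕ H' where
  toFun
    | .star => .inl ()
    | .shift j t => .inr (.inl (j, t))
    | .comm j t => .inr (.inr (.inl (j, t)))
    | .home x => .inr (.inr (.inr (.inl x)))
    | .edge x => .inr (.inr (.inr (.inr x)))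
  invFun
    | .inl _ => .star
    | .inr (.inl p) => .shift p.1 p.2
    | .inr (.inr (.inl p)) => .comm p.1 p.2
    | .inr (.inr (.inr (.inl x))) => .home x
    | .inr (.inr (.inr (.inr x))) => .edge x
  left_inv p := by cases p <;> rfl
  right_inv p := by
    rcases p with _ | _ | _ | _ | _ <;> rfl

theorem finite_row (h : ℕ) {T R H H' : Type} [Finite T] [Finite R] [Finite H] [Finite H'] :
    Finite (LRow h T R H H') :=
  Finite.of_equiv _ (rowEquiv h T R H H').symm

theorem card_row (h : ℕ) {T R H H' : Type} [Finite T] [Finite R] [Finite H] [Finite H'] :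
    Nat.card (LRow h T R H H') =
      1 + (h + 1) * Nat.card T + (h + 1) * Nat.card R + Nat.card H + Nat.card H' := by
  rw [Nat.card_congr (rowEquiv h T R H H'), Nat.card_sum, Nat.card_sum, Nat.card_sum, Nat.card_sum,
    Nat.card_prod, Nat.card_prod, Nat.card_unique, Nat.card_eq_fintype_card (α := Fin (h + 1)),
    Fintype.card_fin]
  ring

theorem family_ncard {X Y L : Type} [Finite X] [Finite Y] [Finite L] (N : Network X Y L) :
    N.family.ncard ≤ Nat.card (Pt X Y L) ^ 2 := by
  have hf : Finite (Pt X Y L) := finite_pt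
  have h1 : N.family = (fun p : Pt X Y L × Pt X Y L => N.cg p.1 p.2) '' Set.univ := by
    ext θ
    constructor
    · rintro ⟨u, u', rfl⟩
      exact ⟨(u, u'), Set.mem_univ _, rfl⟩
    · rintro ⟨p, -, rfl⟩
      exact ⟨p.1, p.2, rfl⟩
  rw [h1]
  refine (Set.ncard_image_le Set.finite_univ).trans ?_
  rw [Set.ncard_univ, Nat.card_prod, pow_two]

end Pool.Agent.Helper59.PX
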