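import Mathlib
import Pool.Agent.Helper59.PX.Rho

/-!
Splitting into classes with small fibres.

Take `ρ` of `exists_rho` for `K = card Z * D`; `m i` is the element of `Z` of number
`ρ i % card Z`; on a fibre `f i = a ∧ m i = r` the map `i ↦ ρ i / card Z < 2 * D` is injective.
-/

set_option autoImplicit false

namespace Pool.Agent.Helper59.PX

private theorem Split_fib {I A Z : Type} [Fintype Z] (hn : 0 < Fintype.card Z)
    (f : I → A) (D : ℕ) (ρ : I → Fin (2 * (Fintype.card Z * D)))
    (h : ∀ i i', ρ i = ρ i' → f i = f i' → i = i') (a : A) (r : Z) :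
    {i | f i = a ∧
      (Fintype.equivFin Z).symm ⟨(ρ i).val % Fintype.card Z, Nat.mod_lt _ hn⟩ = r}.ncard ≤ 2 * D := by
  have h1 : {i | f i = a ∧
      (Fintype.equivFin Z).symm ⟨(ρ i).val % Fintype.card Z, Nat.mod_lt _ hn⟩ = r}.ncard ≤
      ((Finset.range (2 * D) : Finset ℕ) : Set ℕ).ncard := by
    refine Set.ncard_le_ncard_of_injOn (fun i => (ρ i).val / Fintype.card Z) ?_ ?_
      (Finset.finite_toSet _)
    · intro i _
      have h2 := (ρ i).isLt
      simp only [Finset.coe_range, Set.mem_Iio]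
      rw [Nat.div_lt_iff_lt_mul hn]
      calc (ρ i).val < 2 * (Fintype.card Z * D) := h2
        _ = 2 * D * Fintype.card Z := by ring
    · intro i hi i' hi' he
      have he' : (ρ i).val / Fintype.card Z = (ρ i').val / Fintype.card Z := he
      have h3 : (⟨(ρ i).val % Fintype.card Z, Nat.mod_lt _ hn⟩ : Fin (Fintype.card Z)) =
          ⟨(ρ i').val % Fintype.card Z, Nat.mod_lt _ hn⟩ :=
        (Fintype.equivFin Z).symm.injective (hi.2.trans hi'.2.symm)
      have h4 : (ρ i).val % Fintype.card Z = (ρ i').val % Fintype.card Z := congrArg Fin.val h3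
      have h5 : ρ i = ρ i' := by
        apply Fin.ext
        rw [← Nat.div_add_mod (ρ i).val (Fintype.card Z), ← Nat.div_add_mod (ρ i').val (Fintype.card Z),
          he', h4]
      exact h i i' h5 (hi.1.trans hi'.1.symm)
  rwa [Set.ncard_coe_finset, Finset.card_range] at h1

theorem exists_split {I A B Z : Type} [Finite I] [Fintype Z] [Nonempty Z] (f : I → A) (g : I → B)
    (D : ℕ) (hD : 0 < D)
    (hf : ∀ a, {i | f i = a}.ncard ≤ Fintype.card Z * D)
    (hg : ∀ a, {i | g i = a}.ncard ≤ Fintype.card Z * D) :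
    ∃ m : I → Z, (∀ a r, {i | f i = a ∧ m i = r}.ncard ≤ 2 * D) ∧
      (∀ a r, {i | g i = a ∧ m i = r}.ncard ≤ 2 * D) := by
  have hn : 0 < Fintype.card Z := Fintype.card_pos
  obtain ⟨ρ, h1, h2⟩ := exists_rho f g (Fintype.card Z * D) (Nat.mul_pos hn hD) hf hg
  exact ⟨fun i => (Fintype.equivFin Z).symm ⟨(ρ i).val % Fintype.card Z, Nat.mod_lt _ hn⟩,
    fun a r => Split_fib hn f D ρ h1 a r, fun a r => Split_fib hn g D ρ h2 a r⟩

end Pool.Agent.Helper59.PX
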