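import Mathlib
import Pool.Agent.Helper59.PX.Split

/-!
Routes in a Benes network.

PLAN. Induction on `d`. `d = 0`: `path 0 = s`, `path j = t` for `j ≥ 1`. Step:
`s' i = Fin.tail (s i)`, `t' i = Fin.tail (t i)`; the fibres of `(κ, s')`, `(κ, t')` have at most
`card Z * D` elements (union over the digit `0`); `exists_split` with `f = (κ, s')`,
`g = (κ, t')` gives `m`; induction hypothesis for the key `(κ, m)`, `s'`, `t'` and `2 * D` gives
`p`; new path: `0 ↦ s`, `j + 1 ↦ Fin.cons (m i) (p j i)` for `j ≤ 2 * d + 1`, and `t` for all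
larger `j`. The digit which may change in hop `j` is `min j (2 * d - j)`; note
`min (j + 1) (2 * (d + 1) - (j + 1)) = min j (2 * d - j) + 1` for `j ≤ 2 * d`.
-/

set_option autoImplicit false

namespace Pool.Agent.Helper59.PX

theorem fibre_tail_le {Z : Type} [Fintype Z] {d : ℕ} {I Q : Type} [Finite I]
    (κ : I → Q) (s : I → (Fin (d + 2) → Z)) (D : ℕ)
    (hs : ∀ q a, {i | κ i = q ∧ s i = a}.ncard ≤ D) (a : Q × (Fin (d + 1) → Z)) :
    {i | (κ i, Fin.tail (s i)) = a}.ncard ≤ Fintype.card Z * D := by
  classical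
  have hfin : Fintype I := Fintype.ofFinite I
  set S : Finset I := Finset.univ.filter (fun i => (κ i, Fin.tail (s i)) = a) with hS
  have e1 : {i | (κ i, Fin.tail (s i)) = a} = (S : Set I) := by
    ext i; simp [hS]
  rw [e1, Set.ncard_coe_finset]
  have h1 : S.card ≤ D * (S.image (fun i => s i 0)).card := by
    apply Finset.card_le_mul_card_image
    intro z _
    have h2 := hs a.1 (Fin.cons z a.2)
    refine le_trans ?_ h2
    rw [← Set.ncard_coe_finset]
    apply Set.ncard_le_ncard _ (Set.toFinite _)
    intro i hi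
    simp only [hS, Finset.coe_filter, Finset.mem_filter, Finset.mem_univ, true_and,
      Set.mem_setOf_eq] at hi
    obtain ⟨hi1, hi2⟩ := hi
    refine ⟨by rw [← hi1], ?_⟩
    have h3 : s i = Fin.cons (s i 0) (Fin.tail (s i)) := (Fin.cons_self_tail _).symm
    rw [h3, hi2, ← hi1]
  have h4 : (S.image (fun i => s i 0)).card ≤ Fintype.card Z := Finset.card_le_univ _
  calc S.card ≤ D * (S.image (fun i => s i 0)).card := h1
    _ ≤ D * Fintype.card Z := Nat.mul_le_mul_left _ h4
    _ = Fintype.card Z * D := Nat.mul_comm _ _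

theorem exists_route {Z : Type} [Fintype Z] [Nonempty Z] (d : ℕ) : ∀ {I Q : Type} [Finite I]
    (κ : I → Q) (s t : I → (Fin (d + 1) → Z)) (D : ℕ), 0 < D →
    (∀ q a, {i | κ i = q ∧ s i = a}.ncard ≤ D) → (∀ q a, {i | κ i = q ∧ t i = a}.ncard ≤ D) →
    ∃ path : ℕ → I → (Fin (d + 1) → Z), path 0 = s ∧ path (2 * d + 1) = t ∧
      (∀ j ≤ 2 * d, ∀ i (k : Fin (d + 1)), (k : ℕ) ≠ min j (2 * d - j) →
        path (j + 1) i k = path j i k) ∧
      (∀ j q a, {i | κ i = q ∧ path j i = a}.ncard ≤ 2 ^ d * D) := by
  induction d with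
  | zero =>
    intro I Q _ κ s t D hD hs ht
    refine ⟨fun j => if j = 0 then s else t, by simp, by simp, ?_, ?_⟩
    · intro j hj i k hk
      exact absurd (by have := k.2; omega) hk
    · intro j q a
      by_cases h : j = 0
      · simpa [h] using hs q a
      · simpa [h] using ht q a
  | succ d ih =>
    intro I Q _ κ s t D hD hs ht
    have hs' := fibre_tail_le κ s D hs
    have ht' := fibre_tail_le κ t D ht
    obtain ⟨m, hm1, hm2⟩ := exists_split (fun i => (κ i, Fin.tail (s i)))
      (fun i => (κ i, Fin.tail (t i))) D hD hs' ht'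
    obtain ⟨p, p0, p1, p2, p3⟩ := ih (fun i => (κ i, m i)) (fun i => Fin.tail (s i))
      (fun i => Fin.tail (t i)) (2 * D) (by omega)
      (by
        rintro ⟨q, r⟩ a
        refine le_trans (Set.ncard_le_ncard ?_ (Set.toFinite _)) (hm1 (q, a) r)
        rintro i ⟨hi1, hi2⟩
        simp only [Prod.mk.injEq] at hi1
        exact ⟨by simp [hi1.1, hi2], hi1.2⟩)
      (by
        rintro ⟨q, r⟩ a
        refine le_trans (Set.ncard_le_ncard ?_ (Set.toFinite _)) (hm2 (q, a) r)
        rintro i ⟨hi1, hi2⟩
        simp only [Prod.mk.injEq] at hi1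
        exact ⟨by simp [hi1.1, hi2], hi1.2⟩)
    have hDle : D ≤ 2 ^ (d + 1) * D := Nat.le_mul_of_pos_left _ (by positivity)
    refine ⟨fun j => if j = 0 then s else if j ≤ 2 * d + 2 then
      fun i => (Fin.cons (m i) (p (j - 1) i) : Fin (d + 2) → Z) else t, by simp, ?_, ?_, ?_⟩
    · have h1 : ¬ (2 * (d + 1) + 1 = 0) := by omega
      have h2 : ¬ (2 * (d + 1) + 1 ≤ 2 * d + 2) := by omega
      simp only [h1, h2, if_false]
    · intro j hj i k hk
      have hk0 : j = 0 ∨ j = 2 * d + 2 → k ≠ 0 := by
        intro h hk1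
        subst hk1
        apply hk
        rcases h with h | h <;> subst h <;> simp <;> omega
      by_cases hj0 : j = 0
      · subst hj0
        obtain ⟨k', rfl⟩ := Fin.exists_succ_eq.2 (hk0 (Or.inl rfl))
        have h1 : ¬ (0 + 1 = 0) := by omega
        have h2 : (0 + 1 ≤ 2 * d + 2) := by omega
        simp only [h1, h2, if_false, if_true, Fin.cons_succ, Nat.add_sub_cancel, p0]
        rfl
      · by_cases hjl : j = 2 * d + 2
        · subst hjl
          obtain ⟨k', rfl⟩ := Fin.exists_succ_eq.2 (hk0 (Or.inr rfl))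
          have h1 : ¬ (2 * d + 2 + 1 = 0) := by omega
          have h2 : ¬ (2 * d + 2 + 1 ≤ 2 * d + 2) := by omega
          have h3 : ¬ (2 * d + 2 = 0) := by omega
          have h4 : 2 * d + 2 - 1 = 2 * d + 1 := by omega
          simp only [h1, h2, h3, h4, if_false, if_true, le_refl, Fin.cons_succ, p1]
          rfl
        · have h1 : ¬ (j + 1 = 0) := by omega
          have h2 : (j + 1 ≤ 2 * d + 2) := by omega
          have h3 : (j ≤ 2 * d + 2) := by omega
          simp only [h1, h2, h3, hj0, if_false, if_true]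
          refine Fin.cases ?_ (fun k' => ?_) k (motive := fun k => (k : ℕ) ≠ min j (2 * (d + 1) - j) →
            (Fin.cons (m i) (p (j + 1 - 1) i) : Fin (d + 2) → Z) k =
              (Fin.cons (m i) (p (j - 1) i) : Fin (d + 2) → Z) k) hk
          · intro _; simp
          · intro hk'
            simp only [Fin.cons_succ]
            have h5 := p2 (j - 1) (by omega) i k' (by
              intro h
              apply hk'
              simp only [Fin.val_succ]
              omega)
            have h6 : j - 1 + 1 = j + 1 - 1 := by omega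
            rw [h6] at h5
            exact h5
    · intro j q a
      by_cases hj0 : j = 0
      · simp only [hj0, if_true]
        exact le_trans (hs q a) hDle
      · by_cases hjl : j ≤ 2 * d + 2
        · simp only [hj0, hjl, if_false, if_true]
          have h1 := p3 (j - 1) (q, a 0) (Fin.tail a)
          have h2 : 2 ^ d * (2 * D) = 2 ^ (d + 1) * D := by ring
          rw [h2] at h1
          refine le_trans (Set.ncard_le_ncard ?_ (Set.toFinite _)) h1
          rintro i ⟨hi1, hi2⟩
          refine ⟨?_, ?_⟩
          · have : m i = a 0 := by rw [← hi2]; simp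
            simp [hi1, this]
          · rw [← hi2]; simp
        · simp only [hj0, hjl, if_false]
          exact le_trans (ht q a) hDle

end Pool.Agent.Helper59.PX
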