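import Mathlib
import Pool.Agent.Helper59.PX.Route
import Pool.Agent.Helper59.PX.Split2

/-!
Routes in a Benes network with two positions per digit, without increase of the loads.
-/

set_option autoImplicit false

namespace Pool.Agent.Helper59.PX

theorem exists_route2 (d : ℕ) : ∀ {I Q : Type} [Finite I]
    (κ : I → Q) (s t : I → (Fin (d + 1) → ZMod 2)) (D : ℕ),
    (∀ q a, {i | κ i = q ∧ s i = a}.ncard ≤ D) → (∀ q a, {i | κ i = q ∧ t i = a}.ncard ≤ D) →
    ∃ path : ℕ → I → (Fin (d + 1) → ZMod 2), path 0 = s ∧ path (2 * d + 1) = t ∧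
      (∀ j ≤ 2 * d, ∀ i (k : Fin (d + 1)), (k : ℕ) ≠ min j (2 * d - j) →
        path (j + 1) i k = path j i k) ∧
      (∀ j q a, {i | κ i = q ∧ path j i = a}.ncard ≤ D) := by
  induction d with
  | zero =>
    intro I Q _ κ s t D hs ht
    refine ⟨fun j => if j = 0 then s else t, by simp, by simp, ?_, ?_⟩
    · intro j hj i k hk
      exact absurd (by have := k.2; omega) hk
    · intro j q a
      by_cases h : j = 0
      · simpa [h] using hs q a
      · simpa [h] using ht q a
  | succ d ih =>
    intro I Q _ κ s t D hs ht
    have hs' := fibre_tail_le κ s D hs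
    have ht' := fibre_tail_le κ t D ht
    rw [ZMod.card] at hs' ht'
    obtain ⟨m, hm1, hm2⟩ := exists_halving (fun i => (κ i, Fin.tail (s i)))
      (fun i => (κ i, Fin.tail (t i))) D hs' ht'
    obtain ⟨p, p0, p1, p2, p3⟩ := ih (fun i => (κ i, m i)) (fun i => Fin.tail (s i))
      (fun i => Fin.tail (t i)) D
      (by
        rintro ⟨q, r⟩ a
        refine le_trans (Set.ncard_le_ncard ?_ (Set.toFinite _)) (hm1 (q, a) r)
        rintro i ⟨hi1, hi2⟩
        simp only [Prod.mk.injEq] at hi1
        exact ⟨by simp [hi1.1, hi2], hi1.2⟩)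
      (by
        rintro ⟨q, r⟩ a
        refine le_trans (Set.ncard_le_ncard ?_ (Set.toFinite _)) (hm2 (q, a) r)
        rintro i ⟨hi1, hi2⟩
        simp only [Prod.mk.injEq] at hi1
        exact ⟨by simp [hi1.1, hi2], hi1.2⟩)
    refine ⟨fun j => if j = 0 then s else if j ≤ 2 * d + 2 then
      fun i => (Fin.cons (m i) (p (j - 1) i) : Fin (d + 2) → ZMod 2) else t, by simp, ?_, ?_, ?_⟩
    · have h1 : ¬ (2 * (d + 1) + 1 = 0) := by omega
      have h2 : ¬ (2 * (d + 1) + 1 ≤ 2 * d + 2) := by omega
      simp only [h1, h2, if_false]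
    · intro j hj i k hk
      have hk0 : j = 0 ∨ j = 2 * d + 2 → k ≠ 0 := by
        intro h hk1
        subst hk1
        apply hk
        rcases h with h | h <;> subst h <;> simp <;> omega
      by_cases hj0 : j = 0
      · subst hj0
        obtain ⟨k', rfl⟩ := Fin.exists_succ_eq.2 (hk0 (Or.inl rfl))
        have h1 : ¬ (0 + 1 = 0) := by omega
        have h2 : (0 + 1 ≤ 2 * d + 2) := by omega
        simp only [h1, h2, if_false, if_true, Fin.cons_succ, Nat.add_sub_cancel, p0]
        rfl
      · by_cases hjl : j = 2 * d + 2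
        · subst hjl
          obtain ⟨k', rfl⟩ := Fin.exists_succ_eq.2 (hk0 (Or.inr rfl))
          have h1 : ¬ (2 * d + 2 + 1 = 0) := by omega
          have h2 : ¬ (2 * d + 2 + 1 ≤ 2 * d + 2) := by omega
          have h3 : ¬ (2 * d + 2 = 0) := by omega
          have h4 : 2 * d + 2 - 1 = 2 * d + 1 := by omega
          simp only [h1, h2, h3, h4, if_false, if_true, le_refl, Fin.cons_succ, p1]
          rfl
        · have h1 : ¬ (j + 1 = 0) := by omega
          have h2 : (j + 1 ≤ 2 * d + 2) := by omega
          have h3 : (j ≤ 2 * d + 2) := by omega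
          simp only [h1, h2, h3, hj0, if_false, if_true]
          refine Fin.cases ?_ (fun k' => ?_) k (motive := fun k => (k : ℕ) ≠ min j (2 * (d + 1) - j) →
            (Fin.cons (m i) (p (j + 1 - 1) i) : Fin (d + 2) → ZMod 2) k =
              (Fin.cons (m i) (p (j - 1) i) : Fin (d + 2) → ZMod 2) k) hk
          · intro _; simp
          · intro hk'
            simp only [Fin.cons_succ]
            have h5 := p2 (j - 1) (by omega) i k' (by
              intro h
              apply hk'
              simp only [Fin.val_succ]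
              omega)
            have h6 : j - 1 + 1 = j + 1 - 1 := by omega
            rw [h6] at h5
            exact h5
    · intro j q a
      by_cases hj0 : j = 0
      · simp only [hj0, if_true]
        exact hs q a
      · by_cases hjl : j ≤ 2 * d + 2
        · simp only [hj0, hjl, if_false, if_true]
          have h1 := p3 (j - 1) (q, a 0) (Fin.tail a)
          refine le_trans (Set.ncard_le_ncard ?_ (Set.toFinite _)) h1
          rintro i ⟨hi1, hi2⟩
          refine ⟨?_, ?_⟩
          · have : m i = a 0 := by rw [← hi2]; simp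
            simp [hi1, this]
          · rw [← hi2]; simp
        · simp only [hj0, hjl, if_false]
          exact ht q a

end Pool.Agent.Helper59.PX
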