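import Mathlib
import Pool.Agent.Helper59.PX.LayExB
import Pool.Agent.Helper59.PX.Route2
import Pool.Agent.Helper59.PX.Card

/-!
Layouts with about `√N log N` points: two positions per digit, exact halving.
-/

set_option autoImplicit false

namespace Pool.Agent.Helper59.PX

variable {V : Type}

theorem fiber_card_le {I A H : Type} [Finite I] [Finite H] (f : I → A) (g : I → H) (n : ℕ)
    (hn : ∀ a k, {i | f i = a ∧ g i = k}.ncard ≤ n) (a : A) :
    {i | f i = a}.ncard ≤ n * Nat.card H := by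
  classical
  have := Fintype.ofFinite I
  have := Fintype.ofFinite H
  have h1 : {i | f i = a}.ncard = (Finset.univ.filter (fun i => f i = a)).card := by
    rw [← Set.ncard_coe_finset]
    congr 1
    ext i
    simp
  rw [h1, Nat.card_eq_fintype_card]
  refine le_trans (Finset.card_le_mul_card_image (f := g) _ n fun k _ => ?_)
    (Nat.mul_le_mul_left _ (Finset.card_le_univ _))
  refine le_trans (le_of_eq ?_) (hn a k)
  rw [← Set.ncard_coe_finset]
  congr 1
  ext i
  simp

theorem exists_layout2 [Finite V] (G : SimpleGraph V) (d D : ℕ)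
    (hD : ∀ v, (G.neighborSet v).ncard ≤ D) (hN : Nat.card V ≤ 4 ^ (d + 1)) :
    ∃ Λ : Layout G, Λ.h = 2 * d ∧ Nat.card Λ.A = 2 ^ (d + 1) ∧ Nat.card Λ.T = 2 ∧
      Nat.card Λ.H = 2 ^ (d + 1) ∧ Nat.card Λ.H' = (D + 1) * 2 ^ (d + 1) ∧
      Nat.card Λ.R = 4 * (D + 1) * 2 ^ (d + 1) := by
  classical
  have hbp : 0 < 2 ^ (d + 1) := Nat.pow_pos (by omega)
  have hcA : Nat.card (Fin (d + 1) → ZMod 2) = 2 ^ (d + 1) := by
    rw [Nat.card_eq_fintype_card, Fintype.card_fun, ZMod.card, Fintype.card_fin]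
  have hpow : 2 ^ (d + 1) * 2 ^ (d + 1) = 4 ^ (d + 1) := by
    rw [← mul_pow]
    norm_num
  -- the places
  obtain ⟨pv, hpv⟩ := exists_inj (B := V) (A := Fin (d + 1) → ZMod 2) (H := Fin (2 ^ (d + 1)))
    (by rw [hcA, Nat.card_fin, hpow]; exact hN)
  obtain ⟨pe, hpe⟩ := exists_inj (B := G.edgeSet) (A := Fin (d + 1) → ZMod 2)
    (H := Fin ((D + 1) * 2 ^ (d + 1))) (by
      rw [hcA, Nat.card_fin]
      refine (card_edge_le G D hD).trans ?_
      refine (Nat.mul_le_mul_left _ hN).trans (le_of_eq ?_)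
      rw [← hpow]
      ring)
  set K0 : ℕ := 2 * (D + 1) * 2 ^ (d + 1) with hK0
  have hK0p : 0 < K0 := by positivity
  set s : Inc G → (Fin (d + 1) → ZMod 2) := fun i => (pv (vert i)).1 with hs
  set t : Inc G → (Fin (d + 1) → ZMod 2) := fun i => (pe i.1).1 with ht
  have hsf : ∀ (q : Unit) a, {i | (fun _ : Inc G => ()) i = q ∧ s i = a}.ncard ≤ K0 := by
    intro q a
    have h1 := fiber_card_le s (fun i => (pv (vert i)).2) D (fun a k => by
      by_cases hv : ∃ v, pv v = (a, k)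
      · obtain ⟨v, hv⟩ := hv
        refine le_trans (Set.ncard_le_ncard (fun i hi => ?_) (Set.toFinite _)) (ncard_vert_le G D hD v)
        obtain ⟨h2, h3⟩ := hi
        have h4 : pv (vert i) = pv v := by
          rw [hv]
          exact Prod.ext h2 h3
        exact hpv h4
      · have h2 : {i | s i = a ∧ (pv (vert i)).2 = k} = ∅ := by
          ext i
          refine iff_of_false ?_ (Set.notMem_empty i)
          rintro ⟨h3, h4⟩
          exact hv ⟨vert i, Prod.ext h3 h4⟩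
        rw [h2, Set.ncard_empty]
        exact Nat.zero_le _) a
    rw [Nat.card_fin] at h1
    have h5 : {i | (fun _ : Inc G => ()) i = q ∧ s i = a} = {i | s i = a} := by
      ext i
      simp
    rw [h5]
    refine h1.trans ?_
    rw [hK0]
    exact Nat.mul_le_mul_right _ (by omega)
  have htf : ∀ (q : Unit) a, {i | (fun _ : Inc G => ()) i = q ∧ t i = a}.ncard ≤ K0 := by
    intro q a
    have h1 := fiber_card_le t (fun i : Inc G => ((pe i.1).2, i.2)) 1 (fun a k => by
      rw [Set.ncard_le_one (Set.toFinite _)]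
      intro i hi i' hi'
      obtain ⟨h2, h3⟩ := hi
      obtain ⟨h2', h3'⟩ := hi'
      have h6 : ((pe i.1).2, i.2) = ((pe i'.1).2, i'.2) := h3.trans h3'.symm
      have h4 : pe i.1 = pe i'.1 := Prod.ext (h2.trans h2'.symm) (Prod.mk.inj h6).1
      have h5 : i.2 = i'.2 := (Prod.mk.inj h6).2
      exact Prod.ext (hpe h4) h5) a
    rw [Nat.card_prod, Nat.card_fin, Nat.card_eq_fintype_card, Fintype.card_bool] at h1
    have h5 : {i | (fun _ : Inc G => ()) i = q ∧ t i = a} = {i | t i = a} := by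
      ext i
      simp
    rw [h5]
    refine h1.trans (le_of_eq ?_)
    rw [hK0]
    ring
  obtain ⟨path, hp0, hp1, hps, hpf⟩ := exists_route2 d (fun _ : Inc G => ()) s t K0 hsf htf
  have hidx : ∀ j : ℕ, min j (2 * d - j) < d + 1 := by
    intro j
    rcases Nat.le_total j d with h | h
    · exact lt_of_le_of_lt (min_le_left _ _) (by omega)
    · exact lt_of_le_of_lt (min_le_right _ _) (by omega)
  have hrho : ∀ j : ℕ, ∃ ρ : Inc G → Fin (2 * K0),
      (∀ i i', ρ i = ρ i' → path j i = path j i' → i = i') ∧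
      (∀ i i', ρ i = ρ i' → path (j + 1) i = path (j + 1) i' → i = i') := by
    intro j
    refine exists_rho (path j) (path (j + 1)) K0 hK0p (fun a => ?_) (fun a => ?_)
    · have h1 := hpf j () a
      simpa using h1
    · have h1 := hpf (j + 1) () a
      simpa using h1
  choose rho hr1 hr2 using hrho
  refine ⟨{
    h := 2 * d
    A := Fin (d + 1) → ZMod 2
    T := ZMod 2
    R := Fin (2 * K0)
    H := Fin (2 ^ (d + 1))
    H' := Fin ((D + 1) * 2 ^ (d + 1))
    finA := inferInstance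
    finT := inferInstance
    finR := inferInstance
    finH := inferInstance
    finH' := inferInstance
    neA := inferInstance
    neT := inferInstance
    sh := fun j t => Equiv.addRight (Pi.single (⟨min j (2 * d - j), hidx j⟩ : Fin (d + 1)) t)
    pv := pv
    pv_inj := hpv
    pe := pe
    pe_inj := hpe
    path := path
    tt := fun j i => path (j + 1) i ⟨min j (2 * d - j), hidx j⟩ - path j i ⟨min j (2 * d - j), hidx j⟩
    rho := rho
    path_zero := fun i => by rw [hp0]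
    path_last := fun i => by rw [hp1]
    path_succ := ?_
    rho_left := fun j _ i i' h1 h2 => hr1 j i i' h1 h2
    rho_right := fun j _ i i' h1 h2 => hr2 j i i' h1 h2 }, rfl, hcA, ?_, ?_, ?_, ?_⟩
  · intro j hj i
    funext k
    change path (j + 1) i k = path j i k + (Pi.single (⟨min j (2 * d - j), hidx j⟩ : Fin (d + 1))
      (path (j + 1) i ⟨min j (2 * d - j), hidx j⟩ - path j i ⟨min j (2 * d - j), hidx j⟩) :
      Fin (d + 1) → ZMod 2) k
    by_cases hk : k = ⟨min j (2 * d - j), hidx j⟩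
    · subst hk
      rw [Pi.single_eq_same]
      ring
    · rw [Pi.single_eq_of_ne hk, add_zero]
      exact hps j hj i k fun h => hk (Fin.ext h)
  · exact (Nat.card_eq_fintype_card).trans (ZMod.card 2)
  · exact Nat.card_fin _
  · exact Nat.card_fin _
  · refine (Nat.card_fin _).trans ?_
    rw [hK0]
    ring

/-- the constant of the size bound -/
def C1 (D : ℕ) : ℕ := 9 * D + 128

theorem card_layout2 {G : SimpleGraph V} (Λ : Layout G) (d D : ℕ)
    (h : Λ.h = 2 * d) (hA : Nat.card Λ.A = 2 ^ (d + 1)) (hT : Nat.card Λ.T = 2)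
    (hH : Nat.card Λ.H = 2 ^ (d + 1)) (hH' : Nat.card Λ.H' = (D + 1) * 2 ^ (d + 1))
    (hR : Nat.card Λ.R = 4 * (D + 1) * 2 ^ (d + 1)) :
    Nat.card Λ.Point ≤ C1 D * ((d + 1) * 2 ^ (d + 1)) := by
  have := Λ.finA
  have := Λ.finT
  have := Λ.finR
  have := Λ.finH
  have := Λ.finH'
  have : Finite Λ.Row := finite_row Λ.h
  have h1 : Nat.card Λ.Point = 3 + Nat.card Λ.Row + 7 * Nat.card Λ.Col + 24 * Nat.card Λ.Link :=
    card_pt
  have h2 : Nat.card Λ.Row = 1 + (Λ.h + 1) * Nat.card Λ.T + (Λ.h + 1) * Nat.card Λ.R +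
      Nat.card Λ.H + Nat.card Λ.H' := card_row Λ.h
  have h3 : Nat.card Λ.Col = (Λ.h + 2) * Nat.card Λ.A := by
    rw [Nat.card_prod, Nat.card_eq_fintype_card, Fintype.card_fin]
  have h4 : Nat.card Λ.Link = (Λ.h + 1) * (Nat.card Λ.A * Nat.card Λ.T) := by
    rw [Nat.card_prod, Nat.card_prod, Nat.card_eq_fintype_card, Fintype.card_fin]
  rw [h1, h2, h3, h4, h, hA, hT, hH, hH', hR]
  have h6 : 1 ≤ 2 ^ (d + 1) := Nat.one_le_two_pow
  generalize 2 ^ (d + 1) = P at h6
  unfold C1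
  obtain ⟨Q, rfl⟩ : ∃ Q, P = Q + 1 := ⟨P - 1, by omega⟩
  nlinarith [Nat.zero_le (d * Q), Nat.zero_le (D * Q), Nat.zero_le (d * D * Q), Nat.zero_le (d * D)]

theorem exists_small2 (D : ℕ) : ∃ C : ℕ, ∀ (V : Type) [Finite V] [Nonempty V]
    (G : SimpleGraph V), (∀ v, (G.neighborSet v).ncard ≤ D) →
      ∃ Λ : Layout G, Nat.card Λ.Point ^ 2 ≤
        C * (Nat.card V * (Nat.log 2 (Nat.card V) + 1) ^ 2) := by
  refine ⟨4 * C1 D ^ 2, fun V _ _ G hD => ?_⟩
  have hV : 0 < Nat.card V := Nat.card_pos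
  generalize hN : Nat.card V = N at hV
  set d := Nat.log 4 N with hd
  have h1 : N ≤ 4 ^ (d + 1) := (Nat.lt_pow_succ_log_self (by norm_num) N).le
  have h2 : 4 ^ d ≤ N := Nat.pow_log_le_self 4 hV.ne'
  have h3 : d ≤ Nat.log 2 N := Nat.log_anti_left (by norm_num) (by norm_num)
  obtain ⟨Λ, a1, a2, a3, a4, a5, a6⟩ := exists_layout2 G d D hD (by rw [hN]; exact h1)
  refine ⟨Λ, ?_⟩
  have h9 := card_layout2 Λ d D a1 a2 a3 a4 a5 a6
  have h4 : (2 ^ (d + 1)) ^ 2 = 4 * 4 ^ d := by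
    rw [← pow_mul, mul_comm, pow_mul]
    norm_num [pow_succ, mul_comm]
  calc Nat.card Λ.Point ^ 2 ≤ (C1 D * ((d + 1) * 2 ^ (d + 1))) ^ 2 := Nat.pow_le_pow_left h9 _
    _ = C1 D ^ 2 * ((d + 1) ^ 2 * (2 ^ (d + 1)) ^ 2) := by ring
    _ = C1 D ^ 2 * ((d + 1) ^ 2 * (4 * 4 ^ d)) := by rw [h4]
    _ ≤ C1 D ^ 2 * ((Nat.log 2 N + 1) ^ 2 * (4 * N)) := by
        apply Nat.mul_le_mul_left
        apply Nat.mul_le_mul
        · exact Nat.pow_le_pow_left (by omega) 2
        · omega
    _ = 4 * C1 D ^ 2 * (N * (Nat.log 2 N + 1) ^ 2) := by ring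

end Pool.Agent.Helper59.PX
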