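import Mathlib
import Pool.Agent.Helper59.PX.Basic

/-!
The relations used in the rigidity proof, as kernels of maps. Only definitions.
-/

set_option autoImplicit false

namespace Pool.Agent.Helper59.PX

variable {X Y L : Type}

open Classical in
/-- the class of zero is enlarged by `S` -/
noncomputable def kS (S : Set (Pt X Y L)) (p : Pt X Y L) : Pt X Y L :=
  if p ∈ S then .zero else p

/-- all colours -/
def SA : Set (Pt X Y L) :=
  {p | (∃ y v, p = .pl y v) ∨ (∃ l b v, p = .out l b v) ∨ ∃ l b v, p = .inn l b v}

/-- all colours and rows -/
def SB : Set (Pt X Y L) := {p | p ∈ (SA : Set (Pt X Y L)) ∨ ∃ x, p = .row x}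

def SR (s : Bool) : Set (Pt X Y L) := {p | p = .r s}

def SOp (y : Y) (v : Val) : Set (Pt X Y L) := {p | p = .pl y v}

def SOl (l : L) (b : Bool) (v : Val) : Set (Pt X Y L) :=
  {p | p = .out l b v ∨ ∃ b', p = .inn l b' v}

def SOi (l : L) (v : Val) : Set (Pt X Y L) := {p | ∃ b', p = .inn l b' v}

namespace Network

variable (N : Network X Y L)

/-- a row, its cells and the inner colours of its links -/
def SZ (x : X) : Set (Pt X Y L) :=
  {p | p = .row x ∨ (∃ y v, p = N.cell x y v) ∨
    ∃ l b v, N.lab x (N.ep l b) = some (l, b) ∧ p = .inn l b v}

/-- `{r false, r true}` -/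
def kRR (p : Pt X Y L) : Pt X Y L := match p with
  | .r _ => .r false
  | p => p

open Classical in
/-- `{out l b v, inn l b v}` -/
noncomputable def kM (l : L) (b : Bool) (v : Val) (p : Pt X Y L) : Pt X Y L :=
  if p = .inn l b v then .out l b v else p

open Classical in
/-- `{out l b v, pl (ep l b) v'}` and `{zero, inn l false v, inn l true v}` -/
noncomputable def kW (l : L) (b : Bool) (v v' : Val) (p : Pt X Y L) : Pt X Y L :=
  if p = .pl (N.ep l b) v' then .out l b v else if p ∈ (SOi l v : Set (Pt X Y L)) then .zero else p

open Classical in
/-- all colours with zero, and `{col y, col y'}` -/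
noncomputable def kH (y y' : Y) (p : Pt X Y L) : Pt X Y L :=
  if p = .col y' then .col y else if p ∈ (SA : Set (Pt X Y L)) then .zero else p

open Classical in
/-- `{col y, r s}`, the types at the column `y`, and zero with all colours not involving `y` -/
noncomputable def kPsi (y : Y) (s : Bool) : Pt X Y L → Pt X Y L ⊕ Option L
  | .zero => .inl .zero
  | .r s' => .inl (.r s')
  | .col y' => if y' = y then .inl (.r s) else .inl (.col y')
  | .row x => .inr ((N.lab x y).map Prod.fst)
  | .pl y' _ => if y' = y then .inr none else .inl .zero
  | .out l b _ => if N.ep l b = y ∨ N.ep l (!b) = y then .inr (some l) else .inl .zero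
  | .inn l b _ => if N.ep l b = y ∨ N.ep l (!b) = y then .inr (some l) else .inl .zero

open Classical in
/-- the relation of the cell `(x, y)`: the class `0` contains the row and the values of the cell -/
noncomputable def kXi (x : X) (y : Y) : Pt X Y L → Pt X Y L ⊕ Fin 3
  | .zero => .inl .zero
  | .r s => .inl (.r s)
  | .col y' => .inl (.col y')
  | .row x' => if x' = x then .inr 0 else .inl (.row x')
  | .pl y' _ => if N.lab x y = none ∧ y' = y then .inr 0 else .inl .zero
  | .out l b _ => if N.lab x y = some (l, b) then .inr 0
      else if N.lab x y = some (l, !b) then .inr 1 else .inl .zero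
  | .inn l b _ => if N.lab x y = some (l, b) then .inr 2
      else if N.lab x y = some (l, !b) then .inr 1 else .inl .zero

open Classical in
/-- `{row x, row star}`; in every column the values of the cell of `x` with the plain colours -/
noncomputable def kN (x : X) : Pt X Y L → Pt X Y L ⊕ Y
  | .zero => .inl .zero
  | .r s => .inl (.r s)
  | .col y' => .inl (.col y')
  | .row x' => if x' = x then .inl (.row N.star) else .inl (.row x')
  | .pl w _ => .inr w
  | .out l b v => if N.lab x (N.ep l b) = some (l, b) then .inr (N.ep l b) else .inl (.out l b v)
  | .inn l b v => if N.lab x (N.ep l b) = some (l, b) then .inl .zero else .inl (.inn l b v)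

open Classical in
/-- the relation of a link: the two columns, the values of the link, zero with all other colours -/
noncomputable def kHL (l : L) : Pt X Y L → Pt X Y L ⊕ Val
  | .zero => .inl .zero
  | .r s => .inl (.r s)
  | .col y' => if y' = N.ep l true then .inl (.col (N.ep l false)) else .inl (.col y')
  | .row x' => .inl (.row x')
  | .pl _ _ => .inl .zero
  | .out l' _ v => if l' = l then .inr v else .inl .zero
  | .inn l' _ v => if l' = l then .inr v else .inl .zero

open Classical in
/-- the relation which detects a constraint between the cells `(x, y)` and `(x', y)` -/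
noncomputable def kD (x x' : X) (y : Y) (g g' : Val → Fin 3) : Pt X Y L → Pt X Y L ⊕ Fin 3
  | .zero => .inl .zero
  | .r s => .inl (.r s)
  | .col y' => .inl (.col y')
  | .row x'' => if x'' = x' then .inl (.row x) else .inl (.row x'')
  | .pl y' v => if y' = y ∧ N.lab x y = none then .inr (g v)
      else if y' = y ∧ N.lab x' y = none then .inr (g' v) else .inl .zero
  | .out l b v => if N.lab x y = some (l, b) then .inr (g v)
      else if N.lab x' y = some (l, b) then .inr (g' v) else .inl .zero
  | .inn _ _ _ => .inl .zero

end Network

end Pool.Agent.Helper59.PX
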