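import Mathlib
import Pool.Agent.Helper59.PX.Rels

/-!
The relations `kS S`, `kRR`, `kM`, `kW`, `kH` are closed under the rules (case checks; the columns
are isolated for all of them except `kH`).
-/

set_option autoImplicit false

namespace Pool.Agent.Helper59.PX

variable {X Y L : Type} (N : Network X Y L)

namespace Network

private theorem h8inva_same {u : Pt X Y L} {y : Y} {v w : Val}
    (hal : ∀ x x', u = .row x → u = .row x' → N.AllowV x x' y v w) :
    N.act y v u = N.act y w u := by
  by_cases hp : ∃ x, u = .row x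
  · obtain ⟨x, rfl⟩ := hp
    rw [(hal x x rfl rfl).1 rfl]
  · exact N.act_nonrow y v w u fun x hx => hp ⟨x, hx⟩

private theorem h8inva_kz (S : Set (Pt X Y L)) : kS S .zero = .zero := by
  unfold kS
  split_ifs <;> rfl

private theorem h8inva_mem {S : Set (Pt X Y L)} {p : Pt X Y L} (h : p ∈ S ∨ p = .zero) :
    kS S p = .zero := by
  rcases h with h | h
  · exact if_pos h
  · rw [h]
    exact h8inva_kz S

private theorem h8inva_pl (y : Y) (v : Val) : (.pl y v : Pt X Y L) ∈ (SA : Set (Pt X Y L)) :=
  Or.inl ⟨y, v, rfl⟩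

private theorem h8inva_out (l : L) (b : Bool) (v : Val) :
    (.out l b v : Pt X Y L) ∈ (SA : Set (Pt X Y L)) :=
  Or.inr (Or.inl ⟨l, b, v, rfl⟩)

private theorem h8inva_inn (l : L) (b : Bool) (v : Val) :
    (.inn l b v : Pt X Y L) ∈ (SA : Set (Pt X Y L)) :=
  Or.inr (Or.inr ⟨l, b, v, rfl⟩)

private theorem h8inva_kHz (y y' : Y) {p : Pt X Y L} (h : p ∈ (SA : Set (Pt X Y L))) :
    (kH y y' p : Pt X Y L) = .zero := by
  unfold kH
  rw [if_neg (by rintro rfl; simp [SA] at h), if_pos h]

theorem inv_kS (S : Set (Pt X Y L)) (hcol : ∀ y, (.col y : Pt X Y L) ∉ S)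
    (hact : ∀ p ∈ S, ∀ y v, N.act y v p ∈ S ∨ N.act y v p = .zero) :
    N.Inv (Setoid.ker (kS S)) := by
  have hz : ∀ (p : Pt X Y L) (y : Y) (v : Val), p ∈ S ∨ p = .zero → kS S (N.act y v p) = .zero := by
    rintro p y v (h | rfl)
    · exact h8inva_mem (hact p h y v)
    · exact h8inva_kz S
  refine N.inv_ker (kS S) (fun y t h => ?_) fun u u' y v w h hal => ?_
  · have h1 : kS S (.col y : Pt X Y L) = .col y := if_neg (hcol y)
    rw [h1] at h
    unfold kS at h
    split_ifs at h
    exact h.symm
  · by_cases hu : u ∈ S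
    · have h1 : kS S u = .zero := if_pos hu
      have h2 : u' ∈ S ∨ u' = .zero := by
        by_contra hc
        rw [not_or] at hc
        have h3 : kS S u' = u' := if_neg hc.1
        rw [h1, h3] at h
        exact hc.2 h.symm
      rw [hz u y v (Or.inl hu), hz u' y w h2]
    · have h1 : kS S u = u := if_neg hu
      by_cases hu' : u' ∈ S
      · have h2 : kS S u' = .zero := if_pos hu'
        rw [h1, h2] at h
        rw [hz u y v (Or.inr h), hz u' y w (Or.inl hu')]
      · have h2 : kS S u' = u' := if_neg hu'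
        rw [h1, h2] at h
        subst h
        rw [N.h8inva_same hal]

theorem inv_SA : N.Inv (Setoid.ker (kS (SA : Set (Pt X Y L)))) := by
  refine N.inv_kS _ (fun y => by simp [SA]) ?_
  rintro p (⟨y', w, rfl⟩ | ⟨l, b, w, rfl⟩ | ⟨l, b, w, rfl⟩) y v <;> simp only [act] <;>
    split_ifs <;> first
      | exact Or.inr rfl
      | exact Or.inl (h8inva_pl _ _)
      | exact Or.inl (h8inva_out _ _ _)
      | exact Or.inl (h8inva_inn _ _ _)

theorem inv_SB : N.Inv (Setoid.ker (kS (SB : Set (Pt X Y L)))) := by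
  refine N.inv_kS _ (fun y => by simp [SB, SA]) ?_
  rintro p ((⟨y', w, rfl⟩ | ⟨l, b, w, rfl⟩ | ⟨l, b, w, rfl⟩) | ⟨x, rfl⟩) y v
  · simp only [act]
    split_ifs
    · exact Or.inl (Or.inl (h8inva_pl _ _))
    · exact Or.inr rfl
  · simp only [act]
    split_ifs
    · exact Or.inl (Or.inl (h8inva_out _ _ _))
    · exact Or.inl (Or.inl (h8inva_inn _ _ _))
    · exact Or.inr rfl
  · simp only [act]
    split_ifs
    · exact Or.inl (Or.inl (h8inva_inn _ _ _))
    · exact Or.inl (Or.inl (h8inva_inn _ _ _))
    · exact Or.inr rfl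
  · simp only [act, cell]
    split
    · exact Or.inl (Or.inl (h8inva_pl _ _))
    · exact Or.inl (Or.inl (h8inva_out _ _ _))

theorem inv_SR (s : Bool) : N.Inv (Setoid.ker (kS (SR s : Set (Pt X Y L)))) := by
  refine N.inv_kS _ (fun y => by simp [SR]) ?_
  rintro p hp y v
  have hp' : p = .r s := hp
  subst hp'
  exact Or.inl rfl

theorem inv_SOp (y : Y) (v : Val) : N.Inv (Setoid.ker (kS (SOp y v : Set (Pt X Y L)))) := by
  refine N.inv_kS _ (fun y => by simp [SOp]) ?_
  rintro p hp y' w
  have hp' : p = .pl y v := hp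
  subst hp'
  simp only [act]
  split_ifs
  · exact Or.inl rfl
  · exact Or.inr rfl

theorem inv_SOl (l : L) (b : Bool) (v : Val) :
    N.Inv (Setoid.ker (kS (SOl l b v : Set (Pt X Y L)))) := by
  refine N.inv_kS _ (fun y => by simp [SOl]) ?_
  rintro p (rfl | ⟨b', rfl⟩) y' w <;> simp only [act] <;> split_ifs <;> first
    | exact Or.inr rfl
    | exact Or.inl (Or.inl rfl)
    | exact Or.inl (Or.inr ⟨_, rfl⟩)

theorem inv_SOi (l : L) (v : Val) : N.Inv (Setoid.ker (kS (SOi l v : Set (Pt X Y L)))) := by
  refine N.inv_kS _ (fun y => by simp [SOi]) ?_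
  rintro p ⟨b', rfl⟩ y' w
  simp only [act]
  split_ifs
  · exact Or.inl ⟨_, rfl⟩
  · exact Or.inl ⟨_, rfl⟩
  · exact Or.inr rfl

theorem inv_SZ (x : X) : N.Inv (Setoid.ker (kS (N.SZ x))) := by
  refine N.inv_kS _ (fun y => ?_) ?_
  · rintro (h | ⟨y', v, h⟩ | ⟨l, b, v, -, h⟩)
    · cases h
    · unfold cell at h
      split at h <;> cases h
    · cases h
  · rintro p (rfl | ⟨y, v, rfl⟩ | ⟨l, b, v, hl, rfl⟩) y' w
    · exact Or.inl (Or.inr (Or.inl ⟨y', w, rfl⟩))
    · cases hxy : N.lab x y with
      | none =>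
        have hc : N.cell x y v = .pl y v := by
          unfold cell
          rw [hxy]
        rw [hc]
        simp only [act]
        split_ifs
        · exact Or.inl (Or.inr (Or.inl ⟨y, v, hc.symm⟩))
        · exact Or.inr rfl
      | some lb =>
        obtain ⟨l, b⟩ := lb
        have hc : N.cell x y v = .out l b v := by
          unfold cell
          rw [hxy]
        rw [hc]
        simp only [act]
        split_ifs
        · exact Or.inl (Or.inr (Or.inl ⟨y, v, hc.symm⟩))
        · exact Or.inl (Or.inr (Or.inr ⟨l, !b, v, N.lab_sym x y l b hxy, rfl⟩))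
        · exact Or.inr rfl
    · simp only [act]
      split_ifs
      · exact Or.inl (Or.inr (Or.inr ⟨l, b, v, hl, rfl⟩))
      · exact Or.inl (Or.inr (Or.inr ⟨l, !b, v, N.lab_sym x _ l b hl, rfl⟩))
      · exact Or.inr rfl

theorem inv_kRR : N.Inv (Setoid.ker (kRR : Pt X Y L → Pt X Y L)) := by
  refine N.inv_ker kRR (fun y t h => ?_) fun u u' y v w h hal => ?_
  · cases t <;> simp_all [kRR]
  · by_cases huu : u = u'
    · subst huu
      rw [N.h8inva_same hal]
    · cases u <;> cases u' <;> first | rfl | (exfalso; revert h huu; simp [kRR])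

theorem inv_kM (l : L) (b : Bool) (v : Val) :
    N.Inv (Setoid.ker (kM l b v : Pt X Y L → Pt X Y L)) := by
  have hio : ∀ (y : Y) (w w' : Val), (kM l b v (N.act y w (.inn l b v)) : Pt X Y L) =
      kM l b v (N.act y w' (.out l b v)) := by
    intro y w w'
    simp only [act]
    split_ifs <;> simp [kM]
  refine N.inv_ker (kM l b v) (fun y t h => ?_) fun u u' y w w' h hal => ?_
  · have h0 : (kM l b v (.col y) : Pt X Y L) = .col y := by simp [kM]
    rw [h0] at h
    by_cases ht : t = .inn l b v
    · unfold kM at h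
      rw [if_pos ht] at h
      cases h
    · unfold kM at h
      rw [if_neg ht] at h
      exact h.symm
  · by_cases hu : u = .inn l b v
    · by_cases hu' : u' = .inn l b v
      · subst hu hu'
        rw [N.h8inva_same hal]
      · have h1 : u' = .out l b v := by
          unfold kM at h
          rw [if_pos hu, if_neg hu'] at h
          exact h.symm
        rw [hu, h1]
        exact hio y w w'
    · by_cases hu' : u' = .inn l b v
      · have h1 : u = .out l b v := by
          unfold kM at h
          rw [if_neg hu, if_pos hu'] at h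
          exact h
        rw [hu', h1]
        exact (hio y w' w).symm
      · unfold kM at h
        rw [if_neg hu, if_neg hu'] at h
        subst h
        rw [N.h8inva_same hal]

theorem inv_kW (l : L) (b : Bool) (v v' : Val) : N.Inv (Setoid.ker (N.kW l b v v')) := by
  have hpo : ∀ (y : Y) (w w' : Val), N.kW l b v v' (N.act y w (.pl (N.ep l b) v')) =
      N.kW l b v v' (N.act y w' (.out l b v)) := by
    intro y w w'
    simp only [act]
    split_ifs <;> simp [kW, SOi]
  have hz : ∀ (p : Pt X Y L) (y : Y) (w : Val), p ∈ (SOi l v : Set (Pt X Y L)) ∨ p = .zero →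
      N.kW l b v v' (N.act y w p) = .zero := by
    rintro p y w (⟨b', rfl⟩ | rfl)
    · simp only [act]
      split_ifs <;> simp [kW, SOi]
    · simp [act, kW]
  have hcl : ∀ p : Pt X Y L, p = .pl (N.ep l b) v' ∨ (p ∈ (SOi l v : Set (Pt X Y L))) ∨
      (N.kW l b v v' p = p) := by
    intro p
    by_cases h1 : p = .pl (N.ep l b) v'
    · exact Or.inl h1
    · by_cases h2 : p ∈ (SOi l v : Set (Pt X Y L))
      · exact Or.inr (Or.inl h2)
      · refine Or.inr (Or.inr ?_)
        unfold kW
        rw [if_neg h1, if_neg h2]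
  have hk1 : N.kW l b v v' (.pl (N.ep l b) v') = .out l b v := by
    unfold kW
    rw [if_pos rfl]
  have hk2 : ∀ p ∈ (SOi l v : Set (Pt X Y L)), N.kW l b v v' p = .zero := by
    rintro p ⟨b', rfl⟩
    simp [kW, SOi]
  refine N.inv_ker (N.kW l b v v') (fun y t h => ?_) fun u u' y w w' h hal => ?_
  · have h0 : N.kW l b v v' (.col y) = .col y := by simp [kW, SOi]
    rw [h0] at h
    rcases hcl t with h1 | h1 | h1
    · rw [h1, hk1] at h
      cases h
    · rw [hk2 t h1] at h
      cases h
    · rw [h1] at h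
      exact h.symm
  · rcases hcl u with h1 | h1 | h1
    · rcases hcl u' with h2 | h2 | h2
      · rw [h2, ← h1]
        subst h1
        subst h2
        rw [N.h8inva_same hal]
      · rw [h1, hk1, hk2 u' h2] at h
        cases h
      · rw [h1, hk1, h2] at h
        rw [h1, ← h]
        exact hpo y w w'
    · rcases hcl u' with h2 | h2 | h2
      · rw [h2, hk1, hk2 u h1] at h
        cases h
      · rw [hz u y w (Or.inl h1), hz u' y w' (Or.inl h2)]
      · rw [hk2 u h1, h2] at h
        rw [hz u y w (Or.inl h1), hz u' y w' (Or.inr h.symm)]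
    · rcases hcl u' with h2 | h2 | h2
      · rw [h2, hk1, h1] at h
        rw [h2, h]
        exact (hpo y w' w).symm
      · rw [hk2 u' h2, h1] at h
        rw [hz u y w (Or.inr h), hz u' y w' (Or.inl h2)]
      · rw [h1, h2] at h
        subst h
        rw [N.h8inva_same hal]

/-- the class of the image of a point, from the class of the point -/
private def h8inva_G : Pt X Y L → Pt X Y L
  | .r s => .r s
  | .col c => .col c
  | _ => .zero

private theorem h8inva_kH (y y' z : Y) (v : Val) (p : Pt X Y L) :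
    (kH y y' (N.act z v p) : Pt X Y L) = h8inva_G (kH y y' p) := by
  have h0 : (kH y y' .zero : Pt X Y L) = .zero := by simp [kH, SA]
  cases p with
  | zero => rw [h0]; exact h0
  | r s =>
    have h1 : (kH y y' (.r s) : Pt X Y L) = .r s := by simp [kH, SA]
    rw [h1]
    exact h1
  | row x =>
    have h1 : (kH y y' (.row x) : Pt X Y L) = .row x := by simp [kH, SA]
    rw [h1]
    simp only [act, cell]
    split
    · exact h8inva_kHz y y' (h8inva_pl _ _)
    · exact h8inva_kHz y y' (h8inva_out _ _ _)
  | col c =>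
    have h1 : ∃ c', (kH y y' (.col c) : Pt X Y L) = .col c' := by
      by_cases hc : c = y'
      · exact ⟨y, by simp [kH, hc]⟩
      · exact ⟨c, by simp [kH, SA, hc]⟩
    obtain ⟨c', h1⟩ := h1
    have h2 : N.act z v (.col c) = .col c := rfl
    rw [h2, h1]
    rfl
  | pl c w =>
    rw [h8inva_kHz y y' (h8inva_pl c w)]
    simp only [act]
    split_ifs
    · exact h8inva_kHz y y' (h8inva_pl _ _)
    · exact h0
  | out l b w =>
    rw [h8inva_kHz y y' (h8inva_out l b w)]
    simp only [act]
    split_ifs
    · exact h8inva_kHz y y' (h8inva_out _ _ _)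
    · exact h8inva_kHz y y' (h8inva_inn _ _ _)
    · exact h0
  | inn l b w =>
    rw [h8inva_kHz y y' (h8inva_inn l b w)]
    simp only [act]
    split_ifs
    · exact h8inva_kHz y y' (h8inva_inn _ _ _)
    · exact h8inva_kHz y y' (h8inva_inn _ _ _)
    · exact h0

private theorem h8inva_kHa (y y' z z' : Y) (v w : Val) (p : Pt X Y L) :
    (kH y y' (N.act z v p) : Pt X Y L) = kH y y' (N.act z' w p) := by
  rw [h8inva_kH, h8inva_kH]

theorem inv_kH (y y' : Y) : N.Inv (Setoid.ker (kH y y' : Pt X Y L → Pt X Y L)) := by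
  intro u u' a a' h hr
  have h' : (kH y y' u : Pt X Y L) = kH y y' u' := h
  cases hr with
  | left _ _ z v w hal =>
    show kH y y' _ = kH y y' _
    rw [h8inva_kH, h8inva_kH, h']
  | right z z' p v w hal => exact N.h8inva_kHa y y' z z' v w p
  | inert z t p v hal =>
    exfalso
    have h1 : ∃ c, (kH y y' (.col z) : Pt X Y L) = .col c := by
      by_cases hz : z = y'
      · exact ⟨y, by simp [kH, hz]⟩
      · exact ⟨z, by simp [kH, SA, hz]⟩
    obtain ⟨c, hc⟩ := h1
    rw [hc] at h'
    cases u' with
    | col c' => exact hal c' rfl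
    | zero => simp [kH, SA] at h'
    | r s => simp [kH, SA] at h'
    | row x => simp [kH, SA] at h'
    | pl c' w =>
      rw [h8inva_kHz y y' (h8inva_pl _ _)] at h'
      cases h'
    | out l b w =>
      rw [h8inva_kHz y y' (h8inva_out _ _ _)] at h'
      cases h'
    | inn l b w =>
      rw [h8inva_kHz y y' (h8inva_inn _ _ _)] at h'
      cases h'

end Network

end Pool.Agent.Helper59.PX
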