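import Mathlib
import Pool.Agent.Helper59.PX.Rels

/-!
The relations `kN x`, `kHL l`, `kD x x' y g g'` are closed under the rules.

`kN`: `inv_ker`. `{row x, row star}`: at column `w` the images are `cell x w v`, `pl w v'`,
both in the class `inr w`. Class `inr w` (plain colours of `w`, outer colours used by `x` at `w`):
column `w` keeps it, other columns send it to zero or to inner colours used in `x`
(`lab_sym`), which are in the class of zero; the others are fixed by `act` up to the value.
`kHL`: cases over the three rules; in `right` with `{y, y'} = {ep l false, ep l true}` and a row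
`p = row x`: if `lab x y = some (l, b)` then `AllowH` gives `v = w` and the images are
`out l b v`, `out l (!b) v`; otherwise neither cell uses `l` (`lab_sym`), both images are in the
class of zero. `kD`: `inv_ker`; rows `x, x'` at the column `y` give `inr (g v)`, `inr (g' w)`,
equal by `AllowV` (use `allowV_symm` for the pair `x', x`), at other columns both images are in
the class of zero; value classes are kept by column `y` and sent to the class of zero by the
other columns.
-/

set_option autoImplicit false

namespace Pool.Agent.Helper59.PX

variable {X Y L : Type} (N : Network X Y L)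

namespace Network

open Classical in
private theorem invN_kN_rw (x a : X) : N.kN x (.row a) =
    if a = x then .inl (.row N.star) else .inl (.row a) := rfl

open Classical in
private theorem invN_kN_out (x : X) (l : L) (b : Bool) (v : Val) : N.kN x (.out l b v) =
    if N.lab x (N.ep l b) = some (l, b) then .inr (N.ep l b) else .inl (.out l b v) := rfl

open Classical in
private theorem invN_kN_inn (x : X) (l : L) (b : Bool) (v : Val) : N.kN x (.inn l b v) =
    if N.lab x (N.ep l b) = some (l, b) then .inl .zero else .inl (.inn l b v) := rfl

open Classical in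
private theorem invN_kHL_col (l : L) (y : Y) : N.kHL l (.col y) =
    if y = N.ep l true then .inl (.col (N.ep l false)) else .inl (.col y) := rfl

open Classical in
private theorem invN_kHL_out (l l' : L) (b : Bool) (v : Val) : N.kHL l (.out l' b v) =
    if l' = l then .inr v else .inl .zero := rfl

open Classical in
private theorem invN_kHL_inn (l l' : L) (b : Bool) (v : Val) : N.kHL l (.inn l' b v) =
    if l' = l then .inr v else .inl .zero := rfl

open Classical in
private theorem invN_kD_row (x x' : X) (y : Y) (g g' : Val → Fin 3) (a : X) :
    N.kD x x' y g g' (.row a) = if a = x' then .inl (.row x) else .inl (.row a) := rfl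

open Classical in
private theorem invN_kD_pl (x x' : X) (y : Y) (g g' : Val → Fin 3) (y' : Y) (v : Val) :
    N.kD x x' y g g' (.pl y' v) = if y' = y ∧ N.lab x y = none then .inr (g v)
      else if y' = y ∧ N.lab x' y = none then .inr (g' v) else .inl .zero := rfl

open Classical in
private theorem invN_kD_out (x x' : X) (y : Y) (g g' : Val → Fin 3) (l : L) (b : Bool)
    (v : Val) : N.kD x x' y g g' (.out l b v) = if N.lab x y = some (l, b) then .inr (g v)
      else if N.lab x' y = some (l, b) then .inr (g' v) else .inl .zero := rfl

private theorem invN_kN_row (x : X) {u : Pt X Y L} (hu : ∀ a, u ≠ .row a) (z : X) :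
    N.kN x u ≠ .inl (.row z) := by
  cases u with
  | zero => intro h; cases Sum.inl.inj h
  | r s => intro h; cases Sum.inl.inj h
  | row a => exact absurd rfl (hu a)
  | col y => intro h; cases Sum.inl.inj h
  | pl y v => intro h; cases h
  | out l b v =>
    rw [invN_kN_out]
    split_ifs
    · intro h; cases h
    · intro h; cases Sum.inl.inj h
  | inn l b v =>
    rw [invN_kN_inn]
    split_ifs
    · intro h; cases Sum.inl.inj h
    · intro h; cases Sum.inl.inj h

private theorem invN_kN_act (x : X) (y : Y) (v v0 : Val) {u : Pt X Y L} (hu : ∀ a, u ≠ .row a) :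
    N.kN x (N.act y v u) = Sum.elim (fun p => N.kN x (N.act y v0 p))
      (fun w => open Classical in if w = y then .inr w else .inl .zero) (N.kN x u) := by
  classical
  cases u with
  | zero => rfl
  | r s => rfl
  | row a => exact absurd rfl (hu a)
  | col y' => rfl
  | pl y' w =>
    show N.kN x (if y' = y then .pl y' w else .zero) = if y' = y then .inr y' else .inl .zero
    split_ifs <;> rfl
  | out l b w =>
    by_cases hl : N.lab x (N.ep l b) = some (l, b)
    · have e : N.kN x (.out l b w) = .inr (N.ep l b) := if_pos hl
      rw [e]
      show N.kN x (if N.ep l b = y then .out l b w else if N.ep l (!b) = y then .inn l (!b) w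
        else .zero) = if N.ep l b = y then .inr (N.ep l b) else .inl .zero
      split_ifs with h1 h2
      · exact e
      · exact if_pos (N.lab_sym _ _ _ _ hl)
      · rfl
    · have e : N.kN x (.out l b w) = .inl (.out l b w) := if_neg hl
      rw [e]
      rfl
  | inn l b w =>
    by_cases hl : N.lab x (N.ep l b) = some (l, b)
    · have e : N.kN x (.inn l b w) = .inl .zero := if_pos hl
      rw [e]
      show N.kN x (if N.ep l b = y then .inn l b w else if N.ep l (!b) = y then .inn l (!b) w
        else .zero) = .inl .zero
      split_ifs with h1 h2
      · exact e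
      · exact if_pos (N.lab_sym _ _ _ _ hl)
      · rfl
    · have e : N.kN x (.inn l b w) = .inl (.inn l b w) := if_neg hl
      rw [e]
      rfl

private theorem invN_kN_cell (x : X) (y : Y) (v : Val) {a : X} (ha : a = x ∨ a = N.star) :
    N.kN x (N.cell a y v) = .inr y := by
  classical
  rcases ha with rfl | rfl
  · cases hl : N.lab a y with
    | none =>
      have e : N.cell a y v = .pl y v := by unfold cell; rw [hl]
      rw [e]
      rfl
    | some q =>
      obtain ⟨l, b⟩ := q
      have e : N.cell a y v = .out l b v := by unfold cell; rw [hl]
      have h1 := N.lab_ep _ _ _ _ hl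
      rw [e]
      show (if N.lab a (N.ep l b) = some (l, b) then _ else _) = _
      rw [h1, if_pos hl]
  · have e : N.cell N.star y v = .pl y v := by unfold cell; rw [N.lab_star]
    rw [e]
    rfl

theorem inv_kN (x : X) : N.Inv (Setoid.ker (N.kN x)) := by
  classical
  refine N.inv_ker (N.kN x) ?_ ?_
  · intro y t h
    have h' : Sum.inl (.col y) = N.kN x t := h
    cases t with
    | zero => cases Sum.inl.inj h'
    | r s => cases Sum.inl.inj h'
    | row a =>
      rw [invN_kN_rw] at h'
      split_ifs at h'
      · cases Sum.inl.inj h'
      · cases Sum.inl.inj h'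
    | col y' => cases Sum.inl.inj h'; rfl
    | pl y' v => cases h'
    | out l b v =>
      rw [invN_kN_out] at h'
      split_ifs at h'
      cases Sum.inl.inj h'
    | inn l b v =>
      rw [invN_kN_inn] at h'
      split_ifs at h'
      · cases Sum.inl.inj h'
      · cases Sum.inl.inj h'
  · intro u u' y v w h hal
    by_cases hu : ∀ a, u ≠ .row a
    · by_cases hu' : ∀ a, u' ≠ .row a
      · rw [invN_kN_act N x y v v hu, invN_kN_act N x y w v hu', h]
      · push Not at hu'
        obtain ⟨a, rfl⟩ := hu'
        exfalso
        have e : N.kN x (.row a) = .inl (.row (if a = x then N.star else a)) := by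
          rw [invN_kN_rw]
          split_ifs <;> rfl
        rw [e] at h
        exact invN_kN_row N x hu _ h
    · push Not at hu
      obtain ⟨a, rfl⟩ := hu
      have e : ∀ a, N.kN x (.row a) = .inl (.row (if a = x then N.star else a)) := by
        intro a
        rw [invN_kN_rw]
        split_ifs <;> rfl
      by_cases hu' : ∀ a, u' ≠ .row a
      · exfalso
        rw [e] at h
        exact invN_kN_row N x hu' _ h.symm
      · push Not at hu'
        obtain ⟨a', rfl⟩ := hu'
        have hA := hal a a' rfl rfl
        by_cases haa : a = a'
        · subst haa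
          rw [hA.1 rfl]
        · rw [e, e] at h
          have h1 : (if a = x then N.star else a) = if a' = x then N.star else a' :=
            Pt.row.inj (Sum.inl.inj h)
          show N.kN x (N.cell a y v) = N.kN x (N.cell a' y w)
          have h2 : (a = x ∨ a = N.star) ∧ (a' = x ∨ a' = N.star) := by
            by_cases h3 : a = x
            · by_cases h4 : a' = x
              · exact absurd (h3.trans h4.symm) haa
              · rw [if_pos h3, if_neg h4] at h1
                exact ⟨Or.inl h3, Or.inr h1.symm⟩
            · by_cases h4 : a' = x
              · rw [if_neg h3, if_pos h4] at h1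
                exact ⟨Or.inr h1, Or.inl h4⟩
              · rw [if_neg h3, if_neg h4] at h1
                exact absurd h1 haa
          rw [invN_kN_cell N x y v h2.1, invN_kN_cell N x y w h2.2]

private theorem invN_kHL_row (l : L) {u : Pt X Y L} (hu : ∀ a, u ≠ .row a) (z : X) :
    N.kHL l u ≠ .inl (.row z) := by
  cases u with
  | zero => intro h; cases Sum.inl.inj h
  | r s => intro h; cases Sum.inl.inj h
  | row a => exact absurd rfl (hu a)
  | col y =>
    rw [invN_kHL_col]
    split_ifs
    · intro h; cases Sum.inl.inj h
    · intro h; cases Sum.inl.inj h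
  | pl y v => intro h; cases Sum.inl.inj h
  | out l' b v =>
    rw [invN_kHL_out]
    split_ifs
    · intro h; cases h
    · intro h; cases Sum.inl.inj h
  | inn l' b v =>
    rw [invN_kHL_inn]
    split_ifs
    · intro h; cases h
    · intro h; cases Sum.inl.inj h

private theorem invN_kHL_oth {l l' : L} (h : l' ≠ l) (b : Bool) (v : Val) :
    N.kHL l (.out l' b v) = .inl .zero ∧ N.kHL l (.inn l' b v) = .inl .zero :=
  ⟨if_neg h, if_neg h⟩

private theorem invN_kHL_same (l : L) (b : Bool) (v : Val) :
    N.kHL l (.out l b v) = .inr v ∧ N.kHL l (.inn l b v) = .inr v :=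
  ⟨if_pos rfl, if_pos rfl⟩

/-- the images of the colours of a link under the columns -/
private theorem invN_kHL_val (l l' : L) (b : Bool) (y : Y) (v w : Val) :
    N.kHL l (N.act y v (.out l' b w)) =
      (open Classical in if l' = l ∧ (y = N.ep l false ∨ y = N.ep l true) then .inr w
        else .inl .zero) ∧
    N.kHL l (N.act y v (.inn l' b w)) =
      (open Classical in if l' = l ∧ (y = N.ep l false ∨ y = N.ep l true) then .inr w
        else .inl .zero) := by
  classical
  by_cases hl : l' = l
  · subst hl
    have h1 : N.ep l' b = y → (y = N.ep l' false ∨ y = N.ep l' true) := by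
      rintro rfl
      cases b
      · exact Or.inl rfl
      · exact Or.inr rfl
    have h2 : N.ep l' (!b) = y → (y = N.ep l' false ∨ y = N.ep l' true) := by
      rintro rfl
      cases b
      · exact Or.inr rfl
      · exact Or.inl rfl
    have h3 : (y = N.ep l' false ∨ y = N.ep l' true) → N.ep l' b = y ∨ N.ep l' (!b) = y := by
      rintro (rfl | rfl)
      · cases b
        · exact Or.inl rfl
        · exact Or.inr rfl
      · cases b
        · exact Or.inr rfl
        · exact Or.inl rfl
    constructor
    · show N.kHL l' (if N.ep l' b = y then .out l' b w else if N.ep l' (!b) = y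
        then .inn l' (!b) w else .zero) = _
      by_cases e1 : N.ep l' b = y
      · rw [if_pos e1, if_pos ⟨rfl, h1 e1⟩]
        exact (invN_kHL_same N l' b w).1
      · by_cases e2 : N.ep l' (!b) = y
        · rw [if_neg e1, if_pos e2, if_pos ⟨rfl, h2 e2⟩]
          exact (invN_kHL_same N l' (!b) w).2
        · rw [if_neg e1, if_neg e2, if_neg fun h => (h3 h.2).elim e1 e2]
          rfl
    · show N.kHL l' (if N.ep l' b = y then .inn l' b w else if N.ep l' (!b) = y
        then .inn l' (!b) w else .zero) = _
      by_cases e1 : N.ep l' b = y
      · rw [if_pos e1, if_pos ⟨rfl, h1 e1⟩]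
        exact (invN_kHL_same N l' b w).2
      · by_cases e2 : N.ep l' (!b) = y
        · rw [if_neg e1, if_pos e2, if_pos ⟨rfl, h2 e2⟩]
          exact (invN_kHL_same N l' (!b) w).2
        · rw [if_neg e1, if_neg e2, if_neg fun h => (h3 h.2).elim e1 e2]
          rfl
  · rw [if_neg fun h => hl h.1]
    constructor
    · show N.kHL l (if N.ep l' b = y then .out l' b w else if N.ep l' (!b) = y
        then .inn l' (!b) w else .zero) = _
      split_ifs
      · exact (invN_kHL_oth N hl b w).1
      · exact (invN_kHL_oth N hl (!b) w).2
      · rfl
    · show N.kHL l (if N.ep l' b = y then .inn l' b w else if N.ep l' (!b) = y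
        then .inn l' (!b) w else .zero) = _
      split_ifs
      · exact (invN_kHL_oth N hl b w).2
      · exact (invN_kHL_oth N hl (!b) w).2
      · rfl

private theorem invN_kHL_pl (l : L) (y y' : Y) (v w : Val) :
    N.kHL l (N.act y v (.pl y' w)) = .inl .zero := by
  classical
  show N.kHL l (if y' = y then .pl y' w else .zero) = _
  split_ifs <;> rfl

private theorem invN_kHL_act (l : L) (y : Y) (v : Val) {u : Pt X Y L} (hu : ∀ a, u ≠ .row a) :
    N.kHL l (N.act y v u) = Sum.elim (fun p => .inl p)
      (fun w => open Classical in if y = N.ep l false ∨ y = N.ep l true then .inr w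
        else .inl .zero) (N.kHL l u) := by
  classical
  cases u with
  | zero => rfl
  | r s => rfl
  | row a => exact absurd rfl (hu a)
  | col y' =>
    show N.kHL l (.col y') = _
    rw [invN_kHL_col]
    split_ifs <;> rfl
  | pl y' w => exact invN_kHL_pl N l y y' v w
  | out l' b w =>
    rw [(invN_kHL_val N l l' b y v w).1]
    by_cases hl : l' = l
    · subst hl
      rw [(invN_kHL_same N l' b w).1]
      simp
    · rw [(invN_kHL_oth N hl b w).1, if_neg fun h => hl h.1]
      rfl
  | inn l' b w =>
    rw [(invN_kHL_val N l l' b y v w).2]
    by_cases hl : l' = l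
    · subst hl
      rw [(invN_kHL_same N l' b w).2]
      simp
    · rw [(invN_kHL_oth N hl b w).2, if_neg fun h => hl h.1]
      rfl

theorem inv_kHL (l : L) : N.Inv (Setoid.ker (N.kHL l)) := by
  classical
  have hcolv : ∀ y, N.kHL l (.col y) =
      .inl (.col (if y = N.ep l true then N.ep l false else y)) := by
    intro y
    rw [invN_kHL_col]
    split_ifs <;> rfl
  intro u u' a a' h hr
  have h' : N.kHL l u = N.kHL l u' := h
  show N.kHL l a = N.kHL l a'
  cases hr with
  | left _ _ y v w hal =>
    by_cases hu : ∀ a, u ≠ .row a
    · by_cases hu' : ∀ a, u' ≠ .row a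
      · rw [invN_kHL_act N l y v hu, invN_kHL_act N l y w hu', h']
      · push Not at hu'
        obtain ⟨b, rfl⟩ := hu'
        exact absurd h' (invN_kHL_row N l hu b)
    · push Not at hu
      obtain ⟨b, rfl⟩ := hu
      by_cases hu' : ∀ a, u' ≠ .row a
      · exact absurd h'.symm (invN_kHL_row N l hu' b)
      · push Not at hu'
        obtain ⟨b', rfl⟩ := hu'
        have e : b = b' := Pt.row.inj (Sum.inl.inj h')
        subst e
        rw [(hal b b rfl rfl).1 rfl]
  | right y y' p v w hal =>
    by_cases hyy : y = y'
    · subst hyy
      by_cases hp : ∃ x, p = .row x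
      · obtain ⟨x, rfl⟩ := hp
        rw [(hal x rfl).1 rfl]
      · rw [N.act_nonrow y v w p (fun x hx => hp ⟨x, hx⟩)]
    · rw [hcolv, hcolv] at h'
      have h1 := Pt.col.inj (Sum.inl.inj h')
      obtain ⟨b, hb, hb'⟩ : ∃ b, y = N.ep l b ∧ y' = N.ep l (!b) := by
        by_cases h3 : y = N.ep l true
        · by_cases h4 : y' = N.ep l true
          · exact absurd (h3.trans h4.symm) hyy
          · rw [if_pos h3, if_neg h4] at h1
            exact ⟨true, h3, h1.symm⟩
        · by_cases h4 : y' = N.ep l true
          · rw [if_neg h3, if_pos h4] at h1
            exact ⟨false, h1, h4⟩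
          · rw [if_neg h3, if_neg h4] at h1
            exact absurd h1 hyy
      have hy : y = N.ep l false ∨ y = N.ep l true := by
        cases b
        · exact Or.inl hb
        · exact Or.inr hb
      have hy' : y' = N.ep l false ∨ y' = N.ep l true := by
        cases b
        · exact Or.inr hb'
        · exact Or.inl hb'
      by_cases hp : ∀ x, p ≠ .row x
      · rw [invN_kHL_act N l y v hp, invN_kHL_act N l y' w hp]
        congr 1
        funext t
        rw [if_pos hy, if_pos hy']
      · push Not at hp
        obtain ⟨x, rfl⟩ := hp
        show N.kHL l (N.cell x y v) = N.kHL l (N.cell x y' w)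
        by_cases hl : ∃ b', N.lab x y = some (l, b')
        · obtain ⟨b', hl⟩ := hl
          have h3 := N.lab_ep _ _ _ _ hl
          have hbb : b' = b := by
            by_contra hne
            have h4 : b' = !b := Bool.eq_not_iff.2 hne
            rw [h4, ← hb'] at h3
            exact hyy h3.symm
          subst hbb
          have h4 := N.lab_sym _ _ _ _ hl
          rw [← hb'] at h4
          have h5 : v = w := (hal x rfl).2 l b' hl hb'.symm
          have e1 : N.cell x y v = .out l b' v := by unfold cell; rw [hl]
          have e2 : N.cell x y' w = .out l (!b') w := by unfold cell; rw [h4]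
          rw [e1, e2, (invN_kHL_same N l b' v).1, (invN_kHL_same N l (!b') w).1, h5]
        · have key : ∀ (z : Y) (t : Val), (¬ ∃ b', N.lab x z = some (l, b')) →
              N.kHL l (N.cell x z t) = .inl .zero := by
            intro z t hz
            cases hlz : N.lab x z with
            | none =>
              have e : N.cell x z t = .pl z t := by unfold cell; rw [hlz]
              rw [e]
              rfl
            | some q =>
              obtain ⟨l', b'⟩ := q
              have e : N.cell x z t = .out l' b' t := by unfold cell; rw [hlz]
              rw [e]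
              refine (invN_kHL_oth N ?_ b' t).1
              rintro rfl
              exact hz ⟨b', hlz⟩
          have hl' : ¬ ∃ b', N.lab x y' = some (l, b') := by
            rintro ⟨b', hl2⟩
            have h3 := N.lab_ep _ _ _ _ hl2
            have hbb : b' = !b := by
              by_contra hne
              have h4 : b' = b := by
                have h5 := Bool.eq_not_iff.2 hne
                rwa [Bool.not_not] at h5
              rw [h4, ← hb] at h3
              exact hyy h3
            have h4 := N.lab_sym _ _ _ _ hl2
            rw [hbb, Bool.not_not, ← hb] at h4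
            exact hl ⟨b, h4⟩
          rw [key y v hl, key y' w hl']
  | inert y t p v hal =>
    exfalso
    rw [hcolv] at h'
    cases u' with
    | zero => cases Sum.inl.inj h'
    | r s => cases Sum.inl.inj h'
    | row a => cases Sum.inl.inj h'
    | col y' => exact hal y' rfl
    | pl y' v => cases Sum.inl.inj h'
    | out l' b v =>
      rw [invN_kHL_out] at h'
      split_ifs at h'
      all_goals cases Sum.inl.inj h'
    | inn l' b v =>
      rw [invN_kHL_inn] at h'
      split_ifs at h'
      all_goals cases Sum.inl.inj h'

private theorem invN_kD_nrow (x x' : X) (y : Y) (g g' : Val → Fin 3) {u : Pt X Y L}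
    (hu : ∀ a, u ≠ .row a) (z : X) : N.kD x x' y g g' u ≠ .inl (.row z) := by
  cases u with
  | zero => intro h; cases Sum.inl.inj h
  | r s => intro h; cases Sum.inl.inj h
  | row a => exact absurd rfl (hu a)
  | col y => intro h; cases Sum.inl.inj h
  | pl y v =>
    rw [invN_kD_pl]
    split_ifs
    · intro h; cases h
    · intro h; cases h
    · intro h; cases Sum.inl.inj h
  | out l b v =>
    rw [invN_kD_out]
    split_ifs
    · intro h; cases h
    · intro h; cases h
    · intro h; cases Sum.inl.inj h
  | inn l b v => intro h; cases Sum.inl.inj h

private theorem invN_kD_act (x x' : X) (y : Y) (g g' : Val → Fin 3) (y1 : Y) (v : Val)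
    {u : Pt X Y L} (hu : ∀ a, u ≠ .row a) :
    N.kD x x' y g g' (N.act y1 v u) = Sum.elim (fun p => .inl p)
      (fun w => open Classical in if y1 = y then .inr w else .inl .zero)
      (N.kD x x' y g g' u) := by
  classical
  cases u with
  | zero => rfl
  | r s => rfl
  | row a => exact absurd rfl (hu a)
  | col y' => rfl
  | pl y' w =>
    show N.kD x x' y g g' (if y' = y1 then .pl y' w else .zero) = _
    by_cases h1 : y' = y1
    · subst h1
      rw [if_pos rfl, invN_kD_pl]
      by_cases h2 : y' = y
      · split_ifs <;> simp
      · rw [if_neg fun h => h2 h.1, if_neg fun h => h2 h.1]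
        rfl
    · rw [if_neg h1, invN_kD_pl]
      by_cases h2 : y' = y ∧ N.lab x y = none
      · rw [if_pos h2, Sum.elim_inr, if_neg fun h => h1 (h2.1.trans h.symm)]
        rfl
      · by_cases h3 : y' = y ∧ N.lab x' y = none
        · rw [if_neg h2, if_pos h3, Sum.elim_inr, if_neg fun h => h1 (h3.1.trans h.symm)]
          rfl
        · rw [if_neg h2, if_neg h3]
          rfl
  | out l b w =>
    have hz : ∀ c : Fin 3, ¬ (y1 = y) → (N.lab x y = some (l, b) ∨ N.lab x' y = some (l, b)) →
        N.kD x x' y g g' (if N.ep l b = y1 then .out l b w else if N.ep l (!b) = y1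
          then .inn l (!b) w else .zero) = .inl .zero := by
      intro c hy hl
      have h1 : N.ep l b = y := by
        rcases hl with hl | hl
        · exact N.lab_ep _ _ _ _ hl
        · exact N.lab_ep _ _ _ _ hl
      rw [if_neg fun h => hy (h.symm.trans h1)]
      split_ifs <;> rfl
    have hs : y1 = y → (N.lab x y = some (l, b) ∨ N.lab x' y = some (l, b)) →
        N.ep l b = y1 := by
      rintro rfl hl
      rcases hl with hl | hl
      · exact N.lab_ep _ _ _ _ hl
      · exact N.lab_ep _ _ _ _ hl
    show N.kD x x' y g g' (if N.ep l b = y1 then .out l b w else if N.ep l (!b) = y1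
        then .inn l (!b) w else .zero) = _
    rw [invN_kD_out]
    by_cases h1 : N.lab x y = some (l, b)
    · rw [if_pos h1, Sum.elim_inr]
      by_cases hy : y1 = y
      · rw [if_pos hy, if_pos (hs hy (Or.inl h1)), invN_kD_out, if_pos h1]
      · rw [if_neg hy]
        exact hz 0 hy (Or.inl h1)
    · by_cases h2 : N.lab x' y = some (l, b)
      · rw [if_neg h1, if_pos h2, Sum.elim_inr]
        by_cases hy : y1 = y
        · rw [if_pos hy, if_pos (hs hy (Or.inr h2)), invN_kD_out, if_neg h1, if_pos h2]
        · rw [if_neg hy]
          exact hz 0 hy (Or.inr h2)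
      · rw [if_neg h1, if_neg h2, Sum.elim_inl]
        split_ifs
        · rw [invN_kD_out, if_neg h1, if_neg h2]
        · rfl
        · rfl
  | inn l b w =>
    show N.kD x x' y g g' (if N.ep l b = y1 then .inn l b w else if N.ep l (!b) = y1
        then .inn l (!b) w else .zero) = _
    split_ifs <;> rfl

theorem inv_kD (x x' : X) (y : Y) (g g' : Val → Fin 3) (hx : x ≠ x')
    (hg : N.lab x y = N.lab x' y → g = g')
    (hal : ∀ v w, N.AllowV x x' y v w → g v = g' w) :
    N.Inv (Setoid.ker (N.kD x x' y g g')) := by
  classical
  have hcx : ∀ v, N.kD x x' y g g' (N.cell x y v) = .inr (g v) := by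
    intro v
    cases hl : N.lab x y with
    | none =>
      have e : N.cell x y v = .pl y v := by unfold cell; rw [hl]
      rw [e, invN_kD_pl, if_pos ⟨rfl, hl⟩]
    | some q =>
      obtain ⟨l, b⟩ := q
      have e : N.cell x y v = .out l b v := by unfold cell; rw [hl]
      rw [e, invN_kD_out, if_pos hl]
  have hcx' : ∀ v, N.kD x x' y g g' (N.cell x' y v) = .inr (g' v) := by
    intro v
    cases hl : N.lab x' y with
    | none =>
      have e : N.cell x' y v = .pl y v := by unfold cell; rw [hl]
      rw [e, invN_kD_pl]
      by_cases h1 : N.lab x y = none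
      · rw [if_pos ⟨rfl, h1⟩, hg (h1.trans hl.symm)]
      · rw [if_neg fun h => h1 h.2, if_pos ⟨rfl, hl⟩]
    | some q =>
      obtain ⟨l, b⟩ := q
      have e : N.cell x' y v = .out l b v := by unfold cell; rw [hl]
      rw [e, invN_kD_out]
      by_cases h1 : N.lab x y = some (l, b)
      · rw [if_pos h1, hg (h1.trans hl.symm)]
      · rw [if_neg h1, if_pos hl]
  have hco : ∀ (a : X) (y1 : Y) (v : Val), y1 ≠ y →
      N.kD x x' y g g' (N.cell a y1 v) = .inl .zero := by
    intro a y1 v hy
    cases hl : N.lab a y1 with
    | none =>
      have e : N.cell a y1 v = .pl y1 v := by unfold cell; rw [hl]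
      rw [e, invN_kD_pl, if_neg fun h => hy h.1, if_neg fun h => hy h.1]
    | some q =>
      obtain ⟨l, b⟩ := q
      have e : N.cell a y1 v = .out l b v := by unfold cell; rw [hl]
      have h1 := N.lab_ep _ _ _ _ hl
      rw [e, invN_kD_out, if_neg fun h => hy (h1.symm.trans (N.lab_ep _ _ _ _ h)),
        if_neg fun h => hy (h1.symm.trans (N.lab_ep _ _ _ _ h))]
  refine N.inv_ker (N.kD x x' y g g') ?_ ?_
  · intro y1 t h
    have h' : Sum.inl (.col y1) = N.kD x x' y g g' t := h
    cases t with
    | zero => cases Sum.inl.inj h'
    | r s => cases Sum.inl.inj h'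
    | row a =>
      rw [invN_kD_row] at h'
      split_ifs at h'
      · cases Sum.inl.inj h'
      · cases Sum.inl.inj h'
    | col y' => cases Sum.inl.inj h'; rfl
    | pl y' v =>
      rw [invN_kD_pl] at h'
      split_ifs at h'
      cases Sum.inl.inj h'
    | out l b v =>
      rw [invN_kD_out] at h'
      split_ifs at h'
      cases Sum.inl.inj h'
    | inn l b v => cases Sum.inl.inj h'
  · intro u u' y1 v w h hA
    have e : ∀ a, N.kD x x' y g g' (.row a) = .inl (.row (if a = x' then x else a)) := by
      intro a
      rw [invN_kD_row]
      split_ifs <;> rfl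
    by_cases hu : ∀ a, u ≠ .row a
    · by_cases hu' : ∀ a, u' ≠ .row a
      · rw [invN_kD_act N x x' y g g' y1 v hu, invN_kD_act N x x' y g g' y1 w hu', h]
      · push Not at hu'
        obtain ⟨a, rfl⟩ := hu'
        rw [e] at h
        exact absurd h (invN_kD_nrow N x x' y g g' hu _)
    · push Not at hu
      obtain ⟨a, rfl⟩ := hu
      by_cases hu' : ∀ a, u' ≠ .row a
      · rw [e] at h
        exact absurd h.symm (invN_kD_nrow N x x' y g g' hu' _)
      · push Not at hu'
        obtain ⟨a', rfl⟩ := hu'
        have hA1 := hA a a' rfl rfl
        by_cases haa : a = a'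
        · subst haa
          rw [hA1.1 rfl]
        · rw [e, e] at h
          have h1 : (if a = x' then x else a) = if a' = x' then x else a' :=
            Pt.row.inj (Sum.inl.inj h)
          show N.kD x x' y g g' (N.cell a y1 v) = N.kD x x' y g g' (N.cell a' y1 w)
          by_cases hy : y1 = y
          · subst hy
            by_cases h3 : a = x'
            · by_cases h4 : a' = x'
              · exact absurd (h3.trans h4.symm) haa
              · rw [if_pos h3, if_neg h4] at h1
                subst h3
                subst h1
                rw [hcx', hcx, hal w v (N.allowV_symm hA1)]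
            · by_cases h4 : a' = x'
              · rw [if_neg h3, if_pos h4] at h1
                subst h4
                subst h1
                rw [hcx, hcx', hal v w hA1]
              · rw [if_neg h3, if_neg h4] at h1
                exact absurd h1 haa
          · rw [hco a y1 v hy, hco a' y1 w hy]

end Network

end Pool.Agent.Helper59.PX
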