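import Mathlib
import Pool.Agent.Helper59.PX.LayExB
import Pool.Agent.Helper59.PX.Card

/-!
Small layouts: the number of points of a layout with columns `(Fin (d + 1) → ZMod b)` is at most
`C0 d D * b ^ (d + 2)`, and `b` can be chosen with `b ^ (2 * d + 3)` of the order of the number of
vertices.
-/

set_option autoImplicit false

namespace Pool.Agent.Helper59.PX

variable {V : Type}

/-- the constant of the size bound -/
def C0 (d D : ℕ) : ℕ :=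
  4 + (2 * d + 1) * (1 + 2 ^ (d + 2) * (D + 1)) + 1 + (D + 1) + 7 * (2 * d + 2) + 24 * (2 * d + 1)

private theorem LayExC_sum {d D b A P : ℕ} (hA : A ≤ P) (hb : b ≤ P) (h1 : 1 ≤ P)
    (hAb : A * b = P) :
    3 + (1 + (2 * d + 1) * b + (2 * d + 1) * (2 ^ (d + 2) * (D + 1) * P) + P + (D + 1) * P) +
      7 * ((2 * d + 2) * A) + 24 * ((2 * d + 1) * (A * b)) ≤ C0 d D * P := by
  rw [hAb]
  have h2 : C0 d D * P = 3 * P + (P + (2 * d + 1) * P +
      (2 * d + 1) * (2 ^ (d + 2) * (D + 1) * P) + P + (D + 1) * P) +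
      7 * ((2 * d + 2) * P) + 24 * ((2 * d + 1) * P) := by
    unfold C0
    ring
  rw [h2]
  have h3 : (2 * d + 1) * b ≤ (2 * d + 1) * P := Nat.mul_le_mul_left _ hb
  have h4 : (2 * d + 2) * A ≤ (2 * d + 2) * P := Nat.mul_le_mul_left _ hA
  omega

theorem card_layout {G : SimpleGraph V} (Λ : Layout G) (d D b : ℕ) (hb : 1 ≤ b)
    (h : Λ.h = 2 * d) (hA : Nat.card Λ.A = b ^ (d + 1)) (hT : Nat.card Λ.T = b)
    (hH : Nat.card Λ.H = b ^ (d + 2)) (hH' : Nat.card Λ.H' = (D + 1) * b ^ (d + 2))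
    (hR : Nat.card Λ.R = 2 ^ (d + 2) * (D + 1) * b ^ (d + 2)) :
    Nat.card Λ.Point ≤ C0 d D * b ^ (d + 2) := by
  have := Λ.finA
  have := Λ.finT
  have := Λ.finR
  have := Λ.finH
  have := Λ.finH'
  have : Finite Λ.Row := finite_row Λ.h
  have h1 : Nat.card Λ.Point = 3 + Nat.card Λ.Row + 7 * Nat.card Λ.Col + 24 * Nat.card Λ.Link :=
    card_pt
  have h2 : Nat.card Λ.Row = 1 + (Λ.h + 1) * Nat.card Λ.T + (Λ.h + 1) * Nat.card Λ.R +
      Nat.card Λ.H + Nat.card Λ.H' := card_row Λ.h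
  have h3 : Nat.card Λ.Col = (Λ.h + 2) * Nat.card Λ.A := by
    rw [Nat.card_prod, Nat.card_eq_fintype_card, Fintype.card_fin]
  have h4 : Nat.card Λ.Link = (Λ.h + 1) * (Nat.card Λ.A * Nat.card Λ.T) := by
    rw [Nat.card_prod, Nat.card_prod, Nat.card_eq_fintype_card, Fintype.card_fin]
  rw [h1, h2, h3, h4, h, hA, hT, hH, hH', hR]
  have hb' : b ≤ b ^ (d + 2) := Nat.le_self_pow (by omega) b
  have h5 : b ^ (d + 1) ≤ b ^ (d + 2) := Nat.pow_le_pow_right hb (by omega)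
  have h6 : 1 ≤ b ^ (d + 2) := Nat.one_le_pow _ _ hb
  exact LayExC_sum h5 hb' h6 (pow_succ b (d + 1)).symm

theorem exists_base (N k : ℕ) (hN : 1 ≤ N) : ∃ b, 1 ≤ b ∧ N ≤ b ^ (k + 1) ∧
    b ^ (k + 1) ≤ 2 ^ (k + 1) * N := by
  classical
  have hex : ∃ b, 1 ≤ b ∧ N ≤ b ^ (k + 1) := ⟨N, hN, Nat.le_self_pow (by omega) N⟩
  obtain ⟨h1, h2⟩ := Nat.find_spec hex
  have hmin := fun {m : ℕ} (hm : m < Nat.find hex) => Nat.find_min hex hm
  generalize Nat.find hex = b at h1 h2 hmin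
  refine ⟨b, h1, h2, ?_⟩
  rcases Nat.lt_or_ge 1 b with hb | hb
  · have h3 : (b - 1) ^ (k + 1) < N := by
      by_contra h4
      exact hmin (m := b - 1) (by omega) ⟨by omega, not_lt.1 h4⟩
    calc b ^ (k + 1) ≤ (2 * (b - 1)) ^ (k + 1) := Nat.pow_le_pow_left (by omega) _
      _ = 2 ^ (k + 1) * (b - 1) ^ (k + 1) := mul_pow _ _ _
      _ ≤ 2 ^ (k + 1) * N := Nat.mul_le_mul_left _ h3.le
  · have h4 : b = 1 := by omega
    rw [h4, one_pow]
    exact Nat.mul_pos (by positivity) hN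

theorem exists_small (d D : ℕ) : ∃ C : ℕ, ∀ (V : Type) [Finite V] [Nonempty V]
    (G : SimpleGraph V), (∀ v, (G.neighborSet v).ncard ≤ D) →
      ∃ Λ : Layout G, Nat.card Λ.Point ^ (2 * d + 3) ≤ C * Nat.card V ^ (d + 2) := by
  refine ⟨C0 d D ^ (2 * d + 3) * 2 ^ ((2 * d + 3) * (d + 2)), fun V _ _ G hD => ?_⟩
  obtain ⟨b, hb, h1, h2⟩ := exists_base (Nat.card V) (2 * d + 2) Nat.card_pos
  obtain ⟨Λ, h3, h4, h5, h6, h7, h8⟩ := exists_layout G d D b hb hD h1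
  refine ⟨Λ, ?_⟩
  have h9 := card_layout Λ d D b hb h3 h4 h5 h6 h7 h8
  calc Nat.card Λ.Point ^ (2 * d + 3) ≤ (C0 d D * b ^ (d + 2)) ^ (2 * d + 3) :=
        Nat.pow_le_pow_left h9 _
    _ = C0 d D ^ (2 * d + 3) * (b ^ (2 * d + 2 + 1)) ^ (d + 2) := by
        rw [mul_pow, ← pow_mul, ← pow_mul, mul_comm (d + 2)]
    _ ≤ C0 d D ^ (2 * d + 3) * (2 ^ (2 * d + 2 + 1) * Nat.card V) ^ (d + 2) :=
        Nat.mul_le_mul_left _ (Nat.pow_le_pow_left h2 _)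
    _ = C0 d D ^ (2 * d + 3) * 2 ^ ((2 * d + 3) * (d + 2)) * Nat.card V ^ (d + 2) := by
        rw [mul_pow, ← pow_mul, mul_assoc]

end Pool.Agent.Helper59.PX
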