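import Mathlib
import Pool.Agent.Helper59.PX.LayNet

/-!
A 3-colouring gives a valid choice of values for the network of a layout.

The cells of an incidence get the value `(a, a + 1)`, `a` the colour of its vertex, the cell of an
edge gets the colours of its two ends, all other cells get a default value.
-/

set_option autoImplicit false

namespace Pool.Agent.Helper59.PX

variable {V : Type}

namespace Layout

variable {G : SimpleGraph V} (Λ : Layout G)

/-- default value -/
private def lvb_d : Val := ⟨(0, 1), by decide⟩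

/-- a value with first colour `a` -/
private def lvb_w (a : Fin 3) : Val := ⟨(a, a + 1), by revert a; decide⟩

private theorem lvb_fs (a : Fin 3) : fs (lvb_w a) = a := rfl

private theorem lvb_proper (col : V → Fin 3) (hcol : ∀ u v, G.Adj u v → col u ≠ col v)
    (e : G.edgeSet) : col (vert (e, false)) ≠ col (vert (e, true)) := by
  have e1 : vert (e, false) = (ends e).1 := by unfold vert; simp
  have e2 : vert (e, true) = (ends e).2 := by unfold vert; simp
  rw [e1, e2]
  exact hcol _ _ (adj_ends e)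

open Classical in
/-- the values given by a colouring -/
private noncomputable def lvb_c (col : V → Fin 3) (hcol : ∀ u v, G.Adj u v → col u ≠ col v) :
    Λ.Row → Λ.Col → Val
  | .star, _ => lvb_d
  | .shift _ _, _ => lvb_d
  | .home k, y => if h : ∃ v, Λ.pv v = (y.2, k) then lvb_w (col h.choose) else lvb_d
  | .comm j ρ, y =>
      if h : ∃ i : Inc G, Λ.rho j i = ρ ∧
          (y = (j.castSucc, Λ.path j i) ∨ y = (j.succ, Λ.path (j + 1) i)) then
        lvb_w (col (vert h.choose))
      else lvb_d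
  | .edge k, y =>
      if h : ∃ e : G.edgeSet, Λ.pe e = (y.2, k) then
        ⟨(col (vert (h.choose, false)), col (vert (h.choose, true))),
          lvb_proper col hcol h.choose⟩
      else lvb_d

variable (col : V → Fin 3) (hcol : ∀ u v, G.Adj u v → col u ≠ col v)

private theorem lvb_home (v : V) (m : Fin (Λ.h + 2)) :
    Λ.lvb_c col hcol (.home (Λ.pv v).2) (m, (Λ.pv v).1) = lvb_w (col v) := by
  have h : ∃ v', Λ.pv v' = ((Λ.pv v).1, (Λ.pv v).2) := ⟨v, rfl⟩
  have h1 : h.choose = v := Λ.pv_inj h.choose_spec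
  unfold lvb_c
  simp only
  rw [dif_pos h, h1]

private theorem lvb_edge (e : G.edgeSet) (m : Fin (Λ.h + 2)) :
    Λ.lvb_c col hcol (.edge (Λ.pe e).2) (m, (Λ.pe e).1) =
      ⟨(col (vert (e, false)), col (vert (e, true))), lvb_proper col hcol e⟩ := by
  have h : ∃ e' : G.edgeSet, Λ.pe e' = ((Λ.pe e).1, (Λ.pe e).2) := ⟨e, rfl⟩
  have h1 : h.choose = e := Λ.pe_inj h.choose_spec
  unfold lvb_c
  simp only
  rw [dif_pos h]
  apply Subtype.ext
  simp only [h1]

private theorem lvb_uniq (j : Fin (Λ.h + 1)) (i i' : Inc G) (hr : Λ.rho j i' = Λ.rho j i)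
    (y : Λ.Col)
    (h : y = (j.castSucc, Λ.path j i) ∨ y = (j.succ, Λ.path (j + 1) i))
    (h' : y = (j.castSucc, Λ.path j i') ∨ y = (j.succ, Λ.path (j + 1) i')) : i' = i := by
  have hj : (j : ℕ) ≤ Λ.h := Nat.lt_succ_iff.1 j.2
  have hne : j.castSucc ≠ j.succ := by
    intro h0
    have := congrArg Fin.val h0
    simp at this
  rcases h with h | h <;> rcases h' with h' | h' <;> rw [h] at h'
  · exact Λ.rho_left j hj i' i hr (congrArg Prod.snd h').symm
  · exact absurd (congrArg Prod.fst h') hne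
  · exact absurd (congrArg Prod.fst h').symm hne
  · exact Λ.rho_right j hj i' i hr (congrArg Prod.snd h').symm

private theorem lvb_comm (j : Fin (Λ.h + 1)) (i : Inc G) (y : Λ.Col)
    (h : y = (j.castSucc, Λ.path j i) ∨ y = (j.succ, Λ.path (j + 1) i)) :
    Λ.lvb_c col hcol (.comm j (Λ.rho j i)) y = lvb_w (col (vert i)) := by
  have h0 : ∃ i' : Inc G, Λ.rho j i' = Λ.rho j i ∧
      (y = (j.castSucc, Λ.path j i') ∨ y = (j.succ, Λ.path (j + 1) i')) := ⟨i, rfl, h⟩
  have h1 : h0.choose = i := Λ.lvb_uniq j i _ h0.choose_spec.1 y h h0.choose_spec.2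
  unfold lvb_c
  simp only
  rw [dif_pos h0, h1]

private theorem lvb_link (x : Λ.Row) (y : Λ.Col) (l : Λ.Link) (b : Bool)
    (hl : Λ.lab x y = some (l, b)) :
    Λ.lvb_c col hcol x y = Λ.lvb_c col hcol x (Λ.ep l (!b)) := by
  cases x with
  | star => simp [lab] at hl
  | home k => simp [lab] at hl
  | edge k => simp [lab] at hl
  | shift j t => rfl
  | comm j ρ =>
    obtain ⟨i, hi, hl1, h2⟩ := Λ.lab_comm_cases j ρ y l b hl
    subst hi
    subst hl1
    rcases h2 with ⟨hb, hy⟩ | ⟨hb, hy⟩
    · subst hb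
      rw [Λ.lvb_comm col hcol j i y (Or.inl hy)]
      exact (Λ.lvb_comm col hcol j i _ (Or.inr (Λ.ep_lk_true j i))).symm
    · subst hb
      rw [Λ.lvb_comm col hcol j i y (Or.inr hy)]
      exact (Λ.lvb_comm col hcol j i _ (Or.inl (Λ.ep_lk_false j i))).symm

private theorem lvb_lastcell (i : Inc G) :
    Λ.lvb_c col hcol (.comm (Fin.last Λ.h) (Λ.rho Λ.h i)) (Fin.last (Λ.h + 1), (Λ.pe i.1).1) =
      lvb_w (col (vert i)) := by
  refine Λ.lvb_comm col hcol (Fin.last Λ.h) i _ (Or.inr ?_)
  rw [← Λ.path_last i]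
  rfl

theorem exists_valid (hG : G.Colorable 3) : ∃ c : Λ.Row → Λ.Col → Val, Λ.net.Valid c := by
  obtain ⟨C⟩ := hG
  have hcol : ∀ u v, G.Adj u v → C u ≠ C v := fun u v huv => C.valid huv
  refine ⟨Λ.lvb_c (fun v => C v) hcol, ?_, ?_, ?_⟩
  · intro x y l b hl
    exact Λ.lvb_link _ hcol x y l b hl
  · intro x x' y hq
    rcases hq with ⟨i, hx, hx', hy⟩ | ⟨i, j, j', hj, hx, hx', hy⟩ | ⟨e, hx, hx', hy⟩
    · subst hx; subst hx'; subst hy
      have h1 := Λ.lvb_comm (fun v => C v) hcol 0 i (0, Λ.path 0 i) (Or.inl rfl)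
      have h2 := Λ.lvb_home (fun v => C v) hcol (vert i) 0
      rw [← Λ.path_zero i] at h2
      rw [h2]
      exact congrArg fs h1.symm
    · subst hx; subst hx'; subst hy
      have hs : j.succ = j'.castSucc := by
        apply Fin.ext
        simp [hj]
      rw [Λ.lvb_comm _ hcol j i _ (Or.inr rfl), Λ.lvb_comm _ hcol j' i _ (Or.inl (by rw [hs, hj]))]
    · subst hx; subst hx'; subst hy
      rw [Λ.lvb_edge _ hcol e]
      have h1 := Λ.lvb_lastcell (fun v => C v) hcol (e, false)
      exact (congrArg fs h1).symm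
  · intro x x' y hq
    obtain ⟨e, hx, hx', hy⟩ := hq
    subst hx; subst hx'; subst hy
    rw [Λ.lvb_edge _ hcol e]
    have h1 := Λ.lvb_lastcell (fun v => C v) hcol (e, true)
    exact (congrArg fs h1).symm

end Layout

end Pool.Agent.Helper59.PX
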