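import Mathlib
import Pool.Agent.Helper59.PX.InvA
import Pool.Agent.Helper59.PX.InvPsi
import Pool.Agent.Helper59.PX.InvXi
import Pool.Agent.Helper59.PX.InvN

/-!
Rigidity, part A: the rows of `zero`, `r s`, `col y` of an operation which preserves all relations
closed under the rules and is normalised by `f (r false) (r true) = r false`. The relations `SR`,
`kRR`, `SA`, `SB` and `kPsi` show that these points are fixed by every second argument.
-/

set_option autoImplicit false

namespace Pool.Agent.Helper59.PX

open Pool.Agent.Helper70.IdemDefs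

variable {X Y L : Type} (N : Network X Y L)

namespace Network

/-- An idempotent operation which preserves all relations closed under the rules, normalised on
`r false`, `r true`. -/
structure Good (f : Pt X Y L → Pt X Y L → Pt X Y L) : Prop where
  idem : ∀ u, f u u = u
  pres : ∀ θ : Setoid (Pt X Y L), N.Inv θ → ∀ u u' t t', θ u u' → θ t t' → θ (f u t) (f u' t')
  norm : f (.r false) (.r true) = .r false

variable {N} {f : Pt X Y L → Pt X Y L → Pt X Y L}

theorem Good.left (h : N.Good f) {α : Type} (k : Pt X Y L → α) (hk : N.Inv (Setoid.ker k))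
    {u u' : Pt X Y L} (t : Pt X Y L) (hu : k u = k u') : k (f u t) = k (f u' t) :=
  h.pres _ hk _ _ _ _ hu rfl

theorem Good.right (h : N.Good f) {α : Type} (k : Pt X Y L → α) (hk : N.Inv (Setoid.ker k))
    (u : Pt X Y L) {t t' : Pt X Y L} (ht : k t = k t') : k (f u t) = k (f u t') :=
  h.pres _ hk _ _ _ _ rfl ht

private theorem sta_ks {S : Set (Pt X Y L)} {p q : Pt X Y L} (h : kS S p = kS S q)
    (hq : q ∉ S) (hz : q ≠ .zero) : p = q := by
  classical
  simp only [kS] at h
  rw [if_neg hq] at h
  by_cases hp : p ∈ S
  · rw [if_pos hp] at h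
    exact absurd h.symm hz
  · rw [if_neg hp] at h
    exact h

private theorem sta_ksz {S : Set (Pt X Y L)} {p q : Pt X Y L} (h : kS S p = kS S q)
    (hq : q ∈ S ∨ q = .zero) : p ∈ S ∨ p = .zero := by
  classical
  simp only [kS] at h
  have h1 : (if q ∈ S then (.zero : Pt X Y L) else q) = .zero := by
    by_cases hqs : q ∈ S
    · rw [if_pos hqs]
    · rw [if_neg hqs]
      exact hq.resolve_left hqs
  rw [h1] at h
  by_cases hp : p ∈ S
  · exact Or.inl hp
  · rw [if_neg hp] at h
    exact Or.inr h

private theorem sta_cls {S : Set (Pt X Y L)} {p q : Pt X Y L} (hp : p ∈ S ∨ p = .zero)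
    (hq : q ∈ S ∨ q = .zero) : kS S p = kS S q := by
  classical
  have h1 : ∀ u : Pt X Y L, (u ∈ S ∨ u = .zero) → kS S u = .zero := by
    intro u hu
    simp only [kS]
    by_cases hus : u ∈ S
    · rw [if_pos hus]
    · rw [if_neg hus]
      exact hu.resolve_left hus
  rw [h1 p hp, h1 q hq]

private theorem sta_rz (h : N.Good f) (s : Bool) : f (.r s) .zero = .r s := by
  have h2 : f (.r false) .zero = .r false := by
    have e := h.right _ (N.inv_SR true) (.r false) (t := .zero) (t' := .r true)
      (sta_cls (Or.inr rfl) (Or.inl rfl))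
    rw [h.norm] at e
    exact sta_ks e (by simp [SR]) (by simp)
  cases s
  · exact h2
  · have e1 := h.left _ N.inv_kRR (u := .r true) (u' := .r false) .zero rfl
    rw [h2] at e1
    have e2 := h.left _ (N.inv_SR true) (u := .r true) (u' := .zero) .zero
      (sta_cls (Or.inl rfl) (Or.inr rfl))
    rw [h.idem] at e2
    rcases sta_ksz e2 (Or.inr rfl) with e3 | e3
    · exact e3
    · rw [e3] at e1
      simp [kRR] at e1

private theorem sta_psi {y : Y} {s : Bool} {s' : Bool} {p : Pt X Y L}
    (h : N.kPsi y s p = N.kPsi y s (.r s')) : p = .r s' ∨ (p = .col y ∧ s' = s) := by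
  classical
  cases p with
  | zero => simp [Network.kPsi] at h
  | r b => simp [Network.kPsi] at h; left; rw [h]
  | row x => simp [Network.kPsi] at h
  | col y' =>
    simp only [Network.kPsi] at h
    by_cases hy : y' = y
    · rw [if_pos hy] at h
      right
      refine ⟨by rw [hy], ?_⟩
      simpa using h.symm
    · rw [if_neg hy] at h
      simp at h
  | pl y' v =>
    simp only [Network.kPsi] at h
    split_ifs at h <;> simp at h
  | out l b v =>
    simp only [Network.kPsi] at h
    split_ifs at h <;> simp at h
  | inn l b v =>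
    simp only [Network.kPsi] at h
    split_ifs at h <;> simp at h

theorem Good.fr (h : N.Good f) (s : Bool) (t : Pt X Y L) : f (.r s) t = .r s := by
  classical
  have hz := sta_rz h s
  have hA : ∀ t : Pt X Y L, t ∈ (SA : Set (Pt X Y L)) → f (.r s) t = .r s := by
    intro t ht
    have e := h.right _ N.inv_SA (.r s) (t := t) (t' := .zero) (sta_cls (Or.inl ht) (Or.inr rfl))
    rw [hz] at e
    exact sta_ks e (by simp [SA]) (by simp)
  cases t with
  | zero => exact hz
  | r b =>
    by_cases hb : b = s
    · rw [hb]; exact h.idem _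
    · have e := h.right _ (N.inv_SR b) (.r s) (t := .r b) (t' := .zero)
        (sta_cls (Or.inl rfl) (Or.inr rfl))
      rw [hz] at e
      refine sta_ks e ?_ (by simp)
      intro hm
      have hm' : (Pt.r s : Pt X Y L) = .r b := hm
      exact hb (by simpa using hm'.symm)
  | row x =>
    have e := h.right _ N.inv_SB (.r s) (t := .row x) (t' := .zero)
      (sta_cls (Or.inl (Or.inr ⟨x, rfl⟩)) (Or.inr rfl))
    rw [hz] at e
    exact sta_ks e (by simp [SB, SA]) (by simp)
  | col y =>
    have e := h.right _ (N.inv_kPsi y (!s)) (.r s) (t := .col y) (t' := .r (!s))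
      (by simp [Network.kPsi])
    have e2 : f (.r s) (.r (!s)) = .r s := by
      have e3 := h.right _ (N.inv_SR (!s)) (.r s) (t := .r (!s)) (t' := .zero)
        (sta_cls (Or.inl rfl) (Or.inr rfl))
      rw [hz] at e3
      refine sta_ks e3 ?_ (by simp)
      intro hm
      have hm' : (Pt.r s : Pt X Y L) = .r (!s) := hm
      simp at hm'
    rw [e2] at e
    rcases sta_psi e with e4 | e4
    · exact e4
    · exact absurd e4.2 (by simp)
  | pl y v => exact hA _ (Or.inl ⟨y, v, rfl⟩)
  | out l b v => exact hA _ (Or.inr (Or.inl ⟨l, b, v, rfl⟩))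
  | inn l b v => exact hA _ (Or.inr (Or.inr ⟨l, b, v, rfl⟩))

theorem Good.fz (h : N.Good f) (t : Pt X Y L) : f .zero t = .zero := by
  have key : ∀ s, f .zero t = .r s ∨ f .zero t = .zero := by
    intro s
    have e := h.left _ (N.inv_SR s) (u := .zero) (u' := .r s) t
      (sta_cls (Or.inr rfl) (Or.inl rfl))
    rw [h.fr s t] at e
    exact sta_ksz e (Or.inl rfl)
  rcases key false with e1 | e1
  · rcases key true with e2 | e2
    · rw [e1] at e2
      simp at e2
    · exact e2
  · exact e1

theorem Good.fc (h : N.Good f) (y : Y) (t : Pt X Y L) : f (.col y) t = .col y := by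
  have key : ∀ s, f (.col y) t = .r s ∨ f (.col y) t = .col y := by
    intro s
    have e := h.left _ (N.inv_kPsi y s) (u := .col y) (u' := .r s) t
      (by simp [Network.kPsi])
    rw [h.fr s t] at e
    rcases sta_psi e with e1 | e1
    · exact Or.inl e1
    · exact Or.inr e1.1
  rcases key false with e1 | e1
  · rcases key true with e2 | e2
    · rw [e1] at e2
      simp at e2
    · exact e2
  · exact e1

end Network

end Pool.Agent.Helper59.PX
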