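import Mathlib
import Pool.Agent.Helper59.PX.StepA

/-!
Rigidity, part B: `f d t = d` for colours and rows `d` and every `t` which is no column.

The relations `kXi`, `kN` and `kS` show this for rows and `zero` first, then for all other points;
inner colours by `kM` and `SOi`, rows by `kXi` at two different columns.
-/

set_option autoImplicit false

namespace Pool.Agent.Helper59.PX

open Pool.Agent.Helper70.IdemDefs

variable {X Y L : Type} {N : Network X Y L} {f : Pt X Y L → Pt X Y L → Pt X Y L}

private theorem StB_zero (S : Set (Pt X Y L)) : kS S (.zero : Pt X Y L) = .zero := by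
  unfold kS
  split_ifs <;> rfl

private theorem StB_mem {S : Set (Pt X Y L)} {p : Pt X Y L} (h : p ∈ S) : kS S p = .zero := by
  unfold kS
  rw [if_pos h]

private theorem StB_not {S : Set (Pt X Y L)} {p : Pt X Y L} (h : p ∉ S) : kS S p = p := by
  unfold kS
  rw [if_neg h]

/-- the class of zero -/
private theorem StB_cases {S : Set (Pt X Y L)} {p : Pt X Y L} (h : kS S p = .zero) :
    p ∈ S ∨ p = .zero := by
  by_cases hp : p ∈ S
  · exact Or.inl hp
  · rw [StB_not hp] at h
    exact Or.inr h

/-- the other classes are singletons -/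
private theorem StB_eq {S : Set (Pt X Y L)} {p d : Pt X Y L} (hd : d ≠ .zero)
    (h : kS S p = d) : p = d := by
  by_cases hp : p ∈ S
  · rw [StB_mem hp] at h
    exact absurd h.symm hd
  · rwa [StB_not hp] at h

namespace Network

private theorem StB_step (h : N.Good f) {S : Set (Pt X Y L)} (hk : N.Inv (Setoid.ker (kS S)))
    {d t t0 : Pt X Y L} (hd0 : d ≠ .zero) (hd : d ∉ S) (h0 : f d t0 = d)
    (ht : kS S t = kS S t0) : f d t = d := by
  have h1 := h.right (kS S) hk d ht
  rw [h0, StB_not hd] at h1
  exact StB_eq hd0 h1

/-- from a row and zero to all points which are no columns -/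
private theorem StB_all (h : N.Good f) {d : Pt X Y L} (hd0 : d ≠ .zero)
    (hr : ∀ s, d ≠ .r s) (hz : f d .zero = d) (hrow : ∀ x, f d (.row x) = d)
    (hi : ∀ l v, d ∉ (SOi l v : Set (Pt X Y L)))
    (ho : ∀ l b v, d ≠ .out l b v → d ∉ (SOl l b v : Set (Pt X Y L)))
    (t : Pt X Y L) (ht : ∀ y', t ≠ .col y') : f d t = d := by
  by_cases hdt : t = d
  · rw [hdt]
    exact h.idem d
  cases t with
  | zero => exact hz
  | r s =>
    refine StB_step h (N.inv_SR s) hd0 (fun hm => hr s hm) hz ?_
    rw [StB_zero]
    exact StB_mem rfl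
  | row x => exact hrow x
  | col y' => exact absurd rfl (ht y')
  | pl y' w =>
    refine StB_step h (N.inv_SOp y' w) hd0 (fun hm => hdt ?_) hz ?_
    · exact (show d = .pl y' w from hm).symm
    · rw [StB_zero]
      exact StB_mem rfl
  | out l' b' w =>
    refine StB_step h (N.inv_SOl l' b' w) hd0 (ho l' b' w (fun e => hdt e.symm)) hz ?_
    rw [StB_zero]
    exact StB_mem (Or.inl rfl)
  | inn l' b' w =>
    refine StB_step h (N.inv_SOi l' w) hd0 (hi l' w) hz ?_
    rw [StB_zero]
    exact StB_mem ⟨b', rfl⟩

theorem Good.pl_other (h : N.Good f) (y : Y) (v : Val) (t : Pt X Y L) (ht : ∀ y', t ≠ .col y') :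
    f (.pl y v) t = .pl y v := by
  classical
  have hS : ∀ t, f (.pl y v) t = .pl y v ∨ f (.pl y v) t = .zero := by
    intro t
    have h1 := h.left (kS (SOp y v)) (N.inv_SOp y v) (u := .pl y v) (u' := .zero) t
      (by rw [StB_zero]; exact StB_mem rfl)
    rw [h.fz, StB_zero] at h1
    exact StB_cases h1
  have hstar : f (.pl y v) (.row N.star) = .pl y v := by
    rcases hS (.row N.star) with h1 | h1
    · exact h1
    · exfalso
      have h2 := h.left (N.kXi N.star y) (N.inv_kXi N.star y) (u := .pl y v)
        (u' := .row N.star) (.row N.star) (by simp [Network.kXi, N.lab_star y])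
      rw [h1, h.idem] at h2
      simp [Network.kXi] at h2
  have hrow : ∀ x, f (.pl y v) (.row x) = .pl y v := by
    intro x
    rcases hS (.row x) with h1 | h1
    · exact h1
    · exfalso
      have h2 := h.right (N.kN x) (N.inv_kN x) (.pl y v) (t := .row x)
        (t' := .row N.star) (by simp [Network.kN])
      rw [h1, hstar] at h2
      simp [Network.kN] at h2
  have hz : f (.pl y v) .zero = .pl y v := by
    obtain ⟨x', hx'⟩ := N.linked y
    refine StB_step h (N.inv_SZ x') (by simp) ?_ (hrow x') ?_
    · rintro (h1 | ⟨y1, v1, h1⟩ | ⟨l, b, v1, -, h1⟩)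
      · simp at h1
      · unfold Network.cell at h1
        cases hl : N.lab x' y1 with
        | none =>
          rw [hl] at h1
          simp only [Pt.pl.injEq] at h1
          rw [← h1.1] at hl
          exact hx' hl
        | some lb =>
          rw [hl] at h1
          simp at h1
      · simp at h1
    · rw [StB_zero]
      exact (StB_mem (Or.inl rfl)).symm
  refine StB_all h (by simp) (by simp) hz hrow ?_ ?_ t ht
  · rintro l w ⟨b', h1⟩
    simp at h1
  · rintro l b w - (h1 | ⟨b', h1⟩)
    · simp at h1
    · simp at h1

theorem Good.out_other (h : N.Good f) (l : L) (b : Bool) (v : Val) (t : Pt X Y L)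
    (ht : ∀ y', t ≠ .col y') : f (.out l b v) t = .out l b v := by
  classical
  have hS : ∀ t, f (.out l b v) t = .out l b v ∨ f (.out l b v) t = .zero ∨
      ∃ b', f (.out l b v) t = .inn l b' v := by
    intro t
    have h1 := h.left (kS (SOl l b v)) (N.inv_SOl l b v) (u := .out l b v) (u' := .zero) t
      (by rw [StB_zero]; exact StB_mem (Or.inl rfl))
    rw [h.fz, StB_zero] at h1
    rcases StB_cases h1 with (h2 | h2) | h2
    · exact Or.inl h2
    · exact Or.inr (Or.inr h2)
    · exact Or.inr (Or.inl h2)
  obtain ⟨x, hx⟩ := N.used l b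
  have hx1 : f (.out l b v) (.row x) = .out l b v := by
    have h2 := h.left (N.kXi x (N.ep l b)) (N.inv_kXi x (N.ep l b)) (u := .out l b v)
      (u' := .row x) (.row x) (by simp [Network.kXi, hx])
    rw [h.idem] at h2
    rcases hS (.row x) with h1 | h1 | ⟨b', h1⟩
    · exact h1
    · exfalso
      rw [h1] at h2
      simp [Network.kXi] at h2
    · exfalso
      rw [h1] at h2
      have h3 : N.kXi x (N.ep l b) (.row x) = .inr 0 := by simp [Network.kXi]
      rw [h3] at h2
      unfold Network.kXi at h2
      simp only at h2
      split_ifs at h2 <;> simp at h2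
  have hstar : f (.out l b v) (.row N.star) = .out l b v := by
    have h2 := h.right (N.kN x) (N.inv_kN x) (.out l b v) (t := .row N.star)
      (t' := .row x) (by
        unfold Network.kN
        simp only [if_true]
        split_ifs <;> rfl)
    rw [hx1] at h2
    have h3 : N.kN x (.out l b v) = .inr (N.ep l b) := by simp [Network.kN, hx]
    rw [h3] at h2
    rcases hS (.row N.star) with h1 | h1 | ⟨b', h1⟩
    · exact h1
    · exfalso
      rw [h1] at h2
      simp [Network.kN] at h2
    · exfalso
      rw [h1] at h2
      unfold Network.kN at h2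
      simp only at h2
      split_ifs at h2
  have hrow : ∀ x', f (.out l b v) (.row x') = .out l b v := by
    intro x'
    have h2 := h.right (N.kN x') (N.inv_kN x') (.out l b v) (t := .row x')
      (t' := .row N.star) (by
        unfold Network.kN
        simp only [if_true]
        split_ifs <;> rfl)
    rw [hstar] at h2
    rcases hS (.row x') with h1 | h1 | ⟨b', h1⟩
    · exact h1
    · exfalso
      rw [h1] at h2
      unfold Network.kN at h2
      simp only at h2
      split_ifs at h2 <;> simp at h2
    · exfalso
      rw [h1] at h2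
      unfold Network.kN at h2
      simp only at h2
      split_ifs at h2 <;> simp at h2
  have hz : f (.out l b v) .zero = .out l b v := by
    refine StB_step h (N.inv_SZ N.star) (by simp) ?_ hstar ?_
    · rintro (h1 | ⟨y1, v1, h1⟩ | ⟨l', b', v1, -, h1⟩)
      · simp at h1
      · unfold Network.cell at h1
        rw [N.lab_star] at h1
        simp at h1
      · simp at h1
    · rw [StB_zero]
      exact (StB_mem (Or.inl rfl)).symm
  refine StB_all h (by simp) (by simp) hz hrow ?_ ?_ t ht
  · rintro l' w ⟨b', h1⟩
    simp at h1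
  · rintro l' b' w hne (h1 | ⟨b'', h1⟩)
    · exact hne h1
    · simp at h1

theorem Good.inn_other (h : N.Good f) (l : L) (b : Bool) (v : Val) (t : Pt X Y L)
    (ht : ∀ y', t ≠ .col y') : f (.inn l b v) t = .inn l b v := by
  classical
  have h1 := h.left (kS (SOi l v)) (N.inv_SOi l v) (u := .inn l b v) (u' := .zero) t
    (by rw [StB_zero]; exact StB_mem ⟨b, rfl⟩)
  rw [h.fz, StB_zero] at h1
  have h2 := h.left (kM l b v) (N.inv_kM l b v) (u := .inn l b v) (u' := .out l b v) t
    (by simp [kM])
  rw [h.out_other l b v t ht] at h2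
  have h3 : kM l b v (.out l b v : Pt X Y L) = .out l b v := by simp [kM]
  rw [h3] at h2
  unfold kM at h2
  split_ifs at h2 with h4
  · exact h4
  · exfalso
    rw [h2] at h1
    rcases StB_cases h1 with ⟨b', h5⟩ | h5
    · simp at h5
    · simp at h5

theorem Good.row_other (h : N.Good f) [Nonempty Y] (x : X) (t : Pt X Y L)
    (ht : ∀ y', t ≠ .col y') : f (.row x) t = .row x := by
  classical
  have hcls : ∀ y, N.kXi x y (f (.row x) t) = .inr 0 := by
    intro y
    let v : Val := ⟨(0, 1), by decide⟩
    have h0 : N.kXi x y (.row x) = .inr 0 := by simp [Network.kXi]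
    have h1 : N.kXi x y (N.cell x y v) = .inr 0 := by
      unfold Network.cell
      cases hl : N.lab x y with
      | none => simp [Network.kXi, hl]
      | some lb => simp [Network.kXi, hl]
    have h2 := h.left (N.kXi x y) (N.inv_kXi x y) (u := .row x) (u' := N.cell x y v) t
      (by rw [h0, h1])
    have h3 : f (N.cell x y v) t = N.cell x y v := by
      unfold Network.cell
      cases hl : N.lab x y with
      | none => exact h.pl_other y v t ht
      | some lb => exact h.out_other lb.1 lb.2 v t ht
    rw [h2, h3, h1]
  obtain ⟨y⟩ := ‹Nonempty Y›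
  obtain ⟨x0, hx0⟩ := N.linked y
  obtain ⟨⟨l, b⟩, hl⟩ := Option.ne_none_iff_exists'.1 hx0
  have he := N.lab_ep x0 y l b hl
  have hne := N.ep_ne l b
  have h1 := hcls (N.ep l b)
  have h2 := hcls (N.ep l (!b))
  generalize f (.row x) t = p at h1 h2
  cases p with
  | zero => simp [Network.kXi] at h1
  | r s => simp [Network.kXi] at h1
  | row x' =>
    unfold Network.kXi at h1
    simp only at h1
    split_ifs at h1 with h3
    rw [h3]
  | col y' => simp [Network.kXi] at h1
  | pl y' w =>
    exfalso
    unfold Network.kXi at h1 h2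
    simp only at h1 h2
    split_ifs at h1 h2 with h3 h4
    exact hne (h3.2.symm.trans h4.2)
  | out l' b' w =>
    exfalso
    unfold Network.kXi at h1 h2
    simp only at h1 h2
    split_ifs at h1 with h3 h4
    · split_ifs at h2 with h5 h6
      · exact hne ((N.lab_ep _ _ _ _ h3).symm.trans (N.lab_ep _ _ _ _ h5))
      · simp at h2
    · simp at h1
  | inn l' b' w =>
    exfalso
    unfold Network.kXi at h1
    simp only at h1
    split_ifs at h1 <;> simp at h1

end Network

end Pool.Agent.Helper59.PX
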