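import Mathlib
import Pool.Agent.Helper59.PX.StepC

/-!
Rigidity, part D: the second case gives a valid choice of values (`Good.valid`), so a network
without valid choice has property (P) (`propertyP_of`).
-/

set_option autoImplicit false

namespace Pool.Agent.Helper59.PX

open Pool.Agent.Helper70.IdemDefs

variable {X Y L : Type} {N : Network X Y L} {f : Pt X Y L → Pt X Y L → Pt X Y L}

namespace Network

private theorem stepD_cell_left (x x' : X) (y : Y) (g g' : Val → Fin 3) (v : Val) :
    N.kD x x' y g g' (N.cell x y v) = .inr (g v) := by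
  unfold cell
  split
  · next h => simp [kD, h]
  · next l b h => simp [kD, h]

private theorem stepD_cell_right (x x' : X) (y : Y) (g g' : Val → Fin 3)
    (hg : N.lab x y = N.lab x' y → g = g') (w : Val) :
    N.kD x x' y g g' (N.cell x' y w) = .inr (g' w) := by
  unfold cell
  split
  · next h =>
    by_cases h1 : N.lab x y = none
    · have h2 := hg (h1.trans h.symm)
      simp [kD, h1, h2]
    · simp [kD, h, h1]
  · next l b h =>
    by_cases h1 : N.lab x y = some (l, b)
    · have h2 := hg (h1.trans h.symm)
      simp [kD, h1, h2]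
    · simp [kD, h, h1]

private theorem stepD_pair (h : N.Good f) (c : X → Y → Val)
    (hf : ∀ x y, f (.row x) (.col y) = N.cell x y (c x y)) (x x' : X) (y : Y)
    (g g' : Val → Fin 3) (hx : x ≠ x') (hg : N.lab x y = N.lab x' y → g = g')
    (hal : ∀ v w, N.AllowV x x' y v w → g v = g' w) : g (c x y) = g' (c x' y) := by
  have h1 : N.kD x x' y g g' (.row x) = N.kD x x' y g g' (.row x') := by
    simp [kD, hx]
  have h2 := h.left (N.kD x x' y g g') (N.inv_kD x x' y g g' hx hg hal) (.col y) h1
  rw [hf, hf, stepD_cell_left, stepD_cell_right x x' y g g' hg] at h2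
  exact Sum.inr.inj h2

private theorem stepD_col (l : L) (b : Bool) :
    N.kHL l (.col (N.ep l b)) = N.kHL l (.col (N.ep l (!b))) := by
  have h1 : N.ep l false ≠ N.ep l true := N.ep_ne l false
  cases b <;> simp [kHL, h1]

private theorem stepD_out (l : L) {x : X} {y : Y} {b : Bool} (hl : N.lab x y = some (l, b))
    (v : Val) : N.kHL l (N.cell x y v) = .inr v := by
  simp [cell, hl, kHL]

theorem Good.valid (h : N.Good f) (c : X → Y → Val)
    (hf : ∀ x y, f (.row x) (.col y) = N.cell x y (c x y)) : N.Valid c := by
  refine ⟨fun x y l b hl => ?_, fun x x' y hq => ?_, fun x x' y hq => ?_⟩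
  · have he := N.lab_ep x y l b hl
    have h1 := h.right (N.kHL l) (N.inv_kHL l) (.row x) (stepD_col (N := N) l b)
    rw [hf, hf, he, stepD_out l hl, stepD_out l (N.lab_sym x y l b hl)] at h1
    exact Sum.inr.inj h1
  · by_cases hx : x = x'
    · rw [hx]
    · exact stepD_pair h c hf x x' y fs fs hx (fun _ => rfl) fun v w hal => hal.2.1 hq
  · have hne := N.Q2_ne x x' y hq
    have hx : x ≠ x' := by
      rintro rfl
      exact hne rfl
    exact stepD_pair h c hf x x' y sn fs hx (fun e => absurd e hne) fun v w hal =>
      hal.2.2.2.1 hq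

private theorem stepD_good [Nonempty Y] (hno : ¬ ∃ c, N.Valid c) (h : N.Good f)
    (u t : Pt X Y L) : f u t = u := by
  rcases h.dich with h1 | h1
  · exact h.case1 h1 u t
  · choose c hc using h1
    exact absurd ⟨c, h.valid c hc⟩ hno

private theorem stepD_kRR {p : Pt X Y L} (h : kRR p = .r false) : ∃ s, p = .r s := by
  cases p <;> simp [kRR] at h
  exact ⟨_, rfl⟩

private theorem stepD_kS {s : Bool} {p : Pt X Y L}
    (h : kS (SR s : Set (Pt X Y L)) p = .r (!s)) : p = .r (!s) := by
  unfold kS at h
  split_ifs at h with h1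
  exact h

/-- If there is no valid choice, the family has property (P). -/
theorem propertyP_of [Nonempty Y] (hno : ¬ ∃ c, N.Valid c) : PropertyP N.family := by
  intro f hid hpres
  have hp : ∀ θ : Setoid (Pt X Y L), N.Inv θ → ∀ u u' t t', θ u u' → θ t t' →
      θ (f u t) (f u' t') := fun θ hθ => N.pres_all hpres hθ
  have h1 : kRR (f (.r false) (.r true)) = (.r false : Pt X Y L) := by
    have h2 : kRR (f (.r false) (.r true)) = kRR (f (.r false) (.r false)) :=
      hp _ N.inv_kRR _ _ _ _ rfl rfl
    rw [h2, hid]
    rfl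
  obtain ⟨s, hs⟩ := stepD_kRR h1
  cases s with
  | false =>
    exact Or.inl fun u t => stepD_good hno ⟨hid, hp, hs⟩ u t
  | true =>
    refine Or.inr fun u t => ?_
    have hF0 : kS (SR false : Set (Pt X Y L)) .zero = kS (SR false : Set (Pt X Y L)) (.r false) := by
      simp [kS, SR]
    have hF1 : kS (SR true : Set (Pt X Y L)) .zero = kS (SR true : Set (Pt X Y L)) (.r true) := by
      simp [kS, SR]
    have h3 : f .zero (.r true) = .r true := by
      have h4 : kS (SR false : Set (Pt X Y L)) (f .zero (.r true)) =
          kS (SR false : Set (Pt X Y L)) (f (.r false) (.r true)) :=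
        hp _ (N.inv_SR false) _ _ _ _ hF0 rfl
      rw [hs] at h4
      refine stepD_kS (s := false) (h4.trans ?_)
      simp [kS, SR]
    have h5 : ∃ s, f .zero (.r false) = .r s := by
      have h4 : kRR (f .zero (.r false)) = kRR (f .zero (.r true)) :=
        hp _ N.inv_kRR _ _ _ _ rfl rfl
      rw [h3] at h4
      exact stepD_kRR h4
    have h6 : f .zero (.r false) = .r false := by
      obtain ⟨s, h7⟩ := h5
      have h4 : kS (SR false : Set (Pt X Y L)) (f .zero (.r false)) =
          kS (SR false : Set (Pt X Y L)) (f .zero .zero) :=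
        hp _ (N.inv_SR false) _ _ _ _ rfl hF0.symm
      rw [h7, hid] at h4
      cases s with
      | false => exact h7
      | true => simp [kS, SR] at h4
    have h8 : f (.r true) (.r false) = .r false := by
      have h4 : kS (SR true : Set (Pt X Y L)) (f (.r true) (.r false)) =
          kS (SR true : Set (Pt X Y L)) (f .zero (.r false)) :=
        hp _ (N.inv_SR true) _ _ _ _ hF1.symm rfl
      rw [h6] at h4
      refine stepD_kS (s := true) (h4.trans ?_)
      simp [kS, SR]
    exact stepD_good (f := fun u t => f t u) hno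
      ⟨hid, fun θ hθ u u' t t' hu ht => hp θ hθ _ _ _ _ ht hu, h8⟩ t u

theorem propertyP_iff [Nonempty Y] : PropertyP N.family ↔ ¬ ∃ c, N.Valid c :=
  ⟨fun h ⟨c, hc⟩ => N.not_propertyP c hc h, propertyP_of⟩

end Network

end Pool.Agent.Helper59.PX
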