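import Mathlib
import Pool.Agent.Helper59.PX.StepD
import Pool.Agent.Helper59.PX.LayValA
import Pool.Agent.Helper59.PX.LayValB
import Pool.Agent.Helper59.PX.Ex2

/-!
The two parts of the theorem.
-/

set_option autoImplicit false

namespace Pool.Agent.Helper59.PX

open Pool.Agent.Helper70.IdemDefs

theorem layout_iff {V : Type} {G : SimpleGraph V} (Λ : Layout G) :
    PropertyP Λ.family ↔ ¬ G.Colorable 3 := by
  have := Λ.neA
  have : Nonempty Λ.Col := ⟨(0, Classical.choice Λ.neA)⟩
  have h := Network.propertyP_iff (N := Λ.net)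
  constructor
  · intro hP hG
    exact h.1 hP (Λ.exists_valid hG)
  · intro hG
    refine h.2 ?_
    rintro ⟨c, hc⟩
    exact hG (Λ.colorable_of_valid c hc)

theorem layout_finite {V : Type} {G : SimpleGraph V} (Λ : Layout G) : Finite Λ.Point := by
  have := Λ.finA; have := Λ.finT; have := Λ.finR; have := Λ.finH; have := Λ.finH'
  have : Finite Λ.Row := finite_row _
  exact finite_pt

theorem layout_ncard {V : Type} {G : SimpleGraph V} (Λ : Layout G) :
    Λ.family.ncard ≤ Nat.card Λ.Point ^ 2 := by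
  have := Λ.finA; have := Λ.finT; have := Λ.finR; have := Λ.finH; have := Λ.finH'
  have : Finite Λ.Row := finite_row _
  exact family_ncard _

theorem main :
    (∀ (V : Type) [Finite V] (G : SimpleGraph V) (Λ : Layout G),
      Finite Λ.Point ∧ Λ.family.ncard ≤ Nat.card Λ.Point ^ 2 ∧
        (PropertyP Λ.family ↔ ¬ G.Colorable 3)) ∧
    (∀ D : ℕ, ∃ C : ℕ, ∀ (V : Type) [Finite V] [Nonempty V] (G : SimpleGraph V),
      (∀ v, (G.neighborSet v).ncard ≤ D) →
        ∃ Λ : Layout G, Nat.card Λ.Point ^ 2 ≤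
          C * (Nat.card V * (Nat.log 2 (Nat.card V) + 1) ^ 2)) :=
  ⟨fun _ _ _ Λ => ⟨layout_finite Λ, layout_ncard Λ, layout_iff Λ⟩, exists_small2⟩

end Pool.Agent.Helper59.PX
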